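import Pool.Agent.MP_a43263_nt.UV.Sieve
import Pool.Agent.MP_a43263_nt.U99.Fc
import Pool.Agent.MP_a43263_nt.VE.Fin

-- ======== part 0: formerly Pool.Agent.MP_a43263_nt.V99.OddF
section MrgPart0

/-! Points of odd degree on `y ^ 2 = f(x)` over a finite field. -/

set_option autoImplicit false

noncomputable section

namespace Pool.Agent.MP_a43263_nt.V99

open Polynomial Finset Pool.Agent.MP_a43263_nt.UV Pool.Agent.MP_a43263_nt.UV.Gram

variable {k : Type} [Field k]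

theorem nm_norm [Finite k] {φ : k[X]} (hm : φ.Monic) [hi : Fact (Irreducible φ)] (δ : k[X]) :
    Nm φ δ = Algebra.norm k (AdjoinRoot.mk φ δ) := by
  classical
  let L := AlgebraicClosure k
  have := (AdjoinRoot.powerBasis hm.ne_zero).finite
  refine (algebraMap k L).injective ?_
  rw [Algebra.norm_eq_prod_embeddings k L, ← nm_map hm, Nm,
    resultant_eq_prod_eval _ _ _ le_rfl (IsAlgClosed.splits _), (hm.map _).leadingCoeff, one_pow,
    one_mul, Fintype.prod_equiv (AdjoinRoot.equiv L k φ hm.ne_zero) _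
      (fun x => (δ.map (algebraMap k L)).eval x.1) fun σ => ?_,
    prod_mem_multiset _ _ (fun x => (δ.map (algebraMap k L)).eval x) fun _ => rfl,
    prod_eq_multiset_prod, Multiset.toFinset_val,
    (nodup_roots ((PerfectField.separable_of_irreducible hi.out).map)).dedup]
  rw [eval_map_algebraMap, ← AdjoinRoot.aeval_eq, ← aeval_algHom_apply]
  rfl

theorem nm_pow {φ : k[X]} (hm : φ.Monic) (δ : k[X]) (e : ℕ) : Nm (φ ^ e) δ = Nm φ δ ^ e := by
  induction e with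
  | zero => simp [Nm]
  | succ e ih => rw [pow_succ, nm_mul_left (hm.pow e) hm, ih, pow_succ]

theorem odd_power {f : k[X]} (hm : f.Monic) (h : ∀ G, f ≠ G ^ 2) :
    ∃ (φ g : k[X]) (e : ℕ), φ.Monic ∧ Irreducible φ ∧ Odd e ∧ ¬φ ∣ g ∧ f = φ ^ e * g := by
  induction hn : f.natDegree using Nat.strong_induction_on generalizing f with
  | _ n ih =>
  obtain ⟨φ, m1, m2, m3⟩ := exists_monic_irreducible_factor f fun u =>
    h 1 (by rw [hm.eq_one_of_isUnit u, one_pow])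
  obtain ⟨e, g, g1, rfl⟩ := WfDvdMonoid.max_power_factor hm.ne_zero m2
  rcases e.even_or_odd with ⟨j, rfl⟩ | he
  · have hg := (m1.pow _).of_mul_monic_left hm
    have j0 : j ≠ 0 := by
      rintro rfl
      exact g1 (by simpa using m3)
    obtain ⟨ψ, g', e', n1, n2, n3, n4, rfl⟩ := ih g.natDegree (by
      rw [← hn, (m1.pow _).natDegree_mul hg, m1.natDegree_pow]
      have := Nat.mul_pos (show 0 < j + j by omega) m2.natDegree_pos
      omega) hg (fun G e => h (φ ^ j * G) (by rw [e]; ring)) rfl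
    refine ⟨ψ, φ ^ (j + j) * g', e', n1, n2, n3, fun c => ?_, by ring⟩
    rcases n2.prime.dvd_or_dvd c with c | c
    · exact g1 (((n2.associated_of_dvd m2 (n2.prime.dvd_of_dvd_pow c)).symm.dvd.trans
        (dvd_pow_self ψ n3.pos.ne')).mul_right _)
    · exact n4 c
  · exact ⟨φ, g, e, m1, m2, he, g1, rfl⟩

variable [Fintype k] [DecidableEq k]

/-- the norm from the quotient ring is not always a square -/
theorem nontriv (h2 : ringChar k ≠ 2) {f : k[X]} (hm : f.Monic) (h : ∀ G, f ≠ G ^ 2) :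
    ∃ t, quadraticChar k (Nm f t) = -1 := by
  obtain ⟨φ, g, e, m1, m2, he, g1, rfl⟩ := odd_power hm h
  have hg := (m1.pow _).of_mul_monic_left hm
  have := Fact.mk m2
  have := (AdjoinRoot.powerBasis m1.ne_zero).finite
  have : Finite (AdjoinRoot φ) := Module.finite_of_finite k
  obtain ⟨ν, hν⟩ := FiniteField.exists_nonsquare h2
  obtain ⟨z, hz⟩ := FiniteField.norm_surjective k (AdjoinRoot φ) ν
  obtain ⟨t, rfl⟩ := AdjoinRoot.mk_surjective z
  obtain ⟨u, v, huv⟩ := (m2.coprime_iff_not_dvd).2 g1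
  refine ⟨t * (v * g) + u * φ, ?_⟩
  rw [nm_mul_left (m1.pow _) hg, nm_pow m1,
    nm_congr m1 (δ' := t) ⟨u - t * u, by linear_combination t * huv⟩,
    nm_congr hg (δ' := 1) ⟨t * v - v, by linear_combination huv⟩, nm_norm m1, hz, map_mul, map_pow,
    quadraticChar_neg_one_iff_not_isSquare.2 hν, he.neg_one_pow]
  simp [Nm]

/-- monic polynomials of given degree -/
def Mon (k : Type) [Field k] [Fintype k] (m : ℕ) : Finset k[X] :=
  (Set.Finite.of_finite_image (s := {a : k[X] | a.Monic ∧ a.natDegree = m})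
    (f := fun a (i : Fin (m + 1)) => a.coeff i) (Set.toFinite _) fun a ha b hb e => by
      ext i
      rcases le_or_gt i m with c | c
      · exact congrFun e ⟨i, by omega⟩
      · rw [coeff_eq_zero_of_natDegree_lt (ha.2 ▸ c), coeff_eq_zero_of_natDegree_lt (hb.2 ▸ c)]
    ).toFinset

omit [DecidableEq k] in
theorem mem_Mon {m : ℕ} {a : k[X]} : a ∈ Mon k m ↔ a.Monic ∧ a.natDegree = m :=
  Set.Finite.mem_toFinset _

omit [DecidableEq k] in
theorem card_Mon (m : ℕ) : (Mon k m).card = Fintype.card k ^ m := by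
  rw [← Nat.card_eq_finsetCard, Nat.card_congr (((Equiv.subtypeEquivRight fun _ => mem_Mon).trans
    (monicEquivDegreeLT m)).trans (degreeLTEquiv k m).toEquiv)]
  simp

omit [DecidableEq k] in
/-- sums of periodic functions -/
theorem per {f : k[X]} (hm : f.Monic) [Fintype (AdjoinRoot f)] (W : AdjoinRoot f → ℤ) {m : ℕ}
    (h : f.natDegree ≤ m) : Fintype.card (AdjoinRoot f) * ∑ a ∈ Mon k m, W (AdjoinRoot.mk f a) =
      Fintype.card k ^ m * ∑ z, W z := by
  have key : ∀ z, ∑ a ∈ Mon k m, W (AdjoinRoot.mk f a) =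
      ∑ a ∈ Mon k m, W (AdjoinRoot.mk f a + z) := fun z => by
    obtain ⟨r, rfl⟩ := AdjoinRoot.mk_surjective z
    have hr : (r %ₘ f).degree < m := (degree_modByMonic_lt r hm).trans_le
      (degree_le_natDegree.trans (by exact_mod_cast h))
    have st : ∀ s : k[X], s.degree < m → ∀ a ∈ Mon k m, a + s ∈ Mon k m := fun s hs a ha => by
      obtain ⟨a1, a2⟩ := mem_Mon.1 ha
      have : s.degree < a.degree := by rwa [degree_eq_natDegree a1.ne_zero, a2]
      exact mem_Mon.2 ⟨a1.add_of_left this, (natDegree_add_eq_left_of_degree_lt this).trans a2⟩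
    refine (sum_nbij' (· + r %ₘ f) (· + -(r %ₘ f)) (st _ hr) (st _ (by rwa [degree_neg]))
      (fun a _ => by simp) (fun a _ => by simp) fun a _ => ?_).symm
    rw [map_add, AdjoinRoot.mk_eq_mk.2 (dvd_sub_mod r)]
  rw [← nsmul_eq_mul, ← card_univ, ← sum_const, sum_congr rfl fun z _ => key z, sum_comm,
    sum_congr rfl fun a _ => show ∑ x, W (AdjoinRoot.mk f a + x) = _ from
      Equiv.sum_comp (Equiv.addLeft (AdjoinRoot.mk f a)) W, sum_const, card_Mon]
  simp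

open Classical in
/-- monic divisors -/
def Dv (a : k[X]) : Finset k[X] :=
  ((range (a.natDegree + 1)).biUnion (Mon k)).filter (· ∣ a)

theorem mem_Dv {a b : k[X]} (ha : a.Monic) : b ∈ Dv a ↔ b.Monic ∧ b ∣ a := by
  simp only [Dv, mem_filter, mem_biUnion, mem_range, mem_Mon]
  exact ⟨fun ⟨⟨_, _, h, _⟩, h'⟩ => ⟨h, h'⟩, fun ⟨h, h'⟩ =>
    ⟨⟨_, Nat.lt_succ_of_le (natDegree_le_of_dvd h' ha.ne_zero), h, rfl⟩, h'⟩⟩

theorem conv (F : k[X] → k[X] → ℤ) (m : ℕ) : ∑ a ∈ Mon k m, ∑ b ∈ Dv a, F a b =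
    ∑ i ∈ range (m + 1), ∑ b ∈ Mon k i, ∑ c ∈ Mon k (m - i), F (b * c) b := by
  simp only [sum_sigma']
  symm
  refine sum_nbij' (fun x => ⟨x.2.1 * x.2.2, x.2.1⟩) (fun x => ⟨x.2.natDegree, x.2, x.1 /ₘ x.2⟩)
    ?_ ?_ ?_ ?_ fun _ _ => rfl
  · rintro ⟨i, b, c⟩ h
    simp only [mem_sigma, mem_range, mem_Mon] at h ⊢
    obtain ⟨h1, ⟨h2, h3⟩, h4, h5⟩ := h
    exact ⟨⟨h2.mul h4, by rw [h2.natDegree_mul h4]; omega⟩,
      (mem_Dv (h2.mul h4)).2 ⟨h2, dvd_mul_right _ _⟩⟩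
  · rintro ⟨a, b⟩ h
    simp only [mem_sigma, mem_range, mem_Mon] at h ⊢
    obtain ⟨⟨h1, h2⟩, h3⟩ := h
    obtain ⟨h4, c, rfl⟩ := (mem_Dv h1).1 h3
    have h5 := h4.of_mul_monic_left h1
    rw [h4.natDegree_mul h5] at h2
    rw [mul_divByMonic_cancel_left _ h4]
    exact ⟨by omega, ⟨h4, trivial⟩, h5, by omega⟩
  · rintro ⟨i, b, c⟩ h
    simp only [mem_sigma, mem_range, mem_Mon] at h
    obtain ⟨-, ⟨h2, rfl⟩, -⟩ := h
    simp only [mul_divByMonic_cancel_left _ h2]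
  · rintro ⟨a, b⟩ h
    simp only [mem_sigma, mem_Mon] at h
    obtain ⟨h4, c, rfl⟩ := (mem_Dv h.1.1).1 h.2
    simp only [mul_divByMonic_cancel_left _ h4]

theorem dv_pow {χ : k[X] → ℤ} (hχ : ∀ a b, a.Monic → b.Monic → χ (a * b) = χ a * χ b)
    {π a : k[X]} (m1 : π.Monic) (m2 : Irreducible π) (ha : a.Monic) (hd : ¬π ∣ a) (e : ℕ) :
    ∑ b ∈ Dv (π ^ e * a), χ b = (∑ i ∈ range (e + 1), χ π ^ i) * ∑ b ∈ Dv a, χ b := by
  classical
  induction e with
  | zero => simp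
  | succ e ih =>
    have h1 := (m1.pow e).mul ha
    have h2 := (m1.pow (e + 1)).mul ha
    have e1 : (Dv (π ^ (e + 1) * a)).filter (fun b => ¬π ∣ b) = Dv a := by
      ext b
      rw [mem_filter, mem_Dv h2, mem_Dv ha]
      exact ⟨fun ⟨⟨u, v⟩, w⟩ => ⟨u, (m2.coprime_iff_not_dvd.2 w).symm.pow_right.dvd_of_dvd_mul_left
        v⟩, fun ⟨u, v⟩ => ⟨⟨u, v.mul_left _⟩, fun c => hd (c.trans v)⟩⟩
    have e2 : (Dv (π ^ (e + 1) * a)).filter (fun b => π ∣ b) =
        (Dv (π ^ e * a)).image (π * ·) := by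
      ext b
      simp only [mem_filter, mem_image, mem_Dv h2, mem_Dv h1]
      rw [pow_succ' π, mul_assoc]
      constructor
      · rintro ⟨⟨u, v⟩, c, rfl⟩
        exact ⟨c, ⟨m1.of_mul_monic_left u, (mul_dvd_mul_iff_left m1.ne_zero).1 v⟩, rfl⟩
      · rintro ⟨c, ⟨u, v⟩, rfl⟩
        exact ⟨⟨m1.mul u, mul_dvd_mul_left _ v⟩, dvd_mul_right _ _⟩
    rw [← sum_filter_add_sum_filter_not _ (π ∣ ·), e1, e2,
      sum_image fun _ _ _ _ => mul_left_cancel₀ m1.ne_zero,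
      sum_congr rfl fun b hb => hχ π b m1 ((mem_Dv h1).1 hb).1, ← mul_sum, ih,
      geom_sum_succ (n := e + 1)]
    ring

theorem geo {x : ℤ} (h : x = 0 ∨ x = 1 ∨ x = -1) (e : ℕ) : 0 ≤ ∑ i ∈ range (e + 1), x ^ i ∧
    (Even e → 0 < ∑ i ∈ range (e + 1), x ^ i) := by
  rcases h with rfl | rfl | rfl
  · simp
  · simp only [one_pow, sum_const, card_range, nsmul_eq_mul, mul_one]
    exact ⟨by positivity, fun _ => by positivity⟩
  · rw [neg_one_geom_sum]
    exact ⟨by split_ifs <;> simp, fun h => by simp [Nat.even_add_one, h]⟩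

theorem dv_one (χ : k[X] → ℤ) : ∑ b ∈ Dv (1 : k[X]), χ b = χ 1 := by
  rw [show Dv (1 : k[X]) = {1} from Finset.ext fun b => by
    rw [mem_Dv monic_one, mem_singleton]
    exact ⟨fun h => h.1.eq_one_of_isUnit (isUnit_of_dvd_one h.2), fun h => by simp [h]⟩,
    sum_singleton]

theorem dv_sign {χ : k[X] → ℤ} (hχ : ∀ a b, a.Monic → b.Monic → χ (a * b) = χ a * χ b)
    (h1 : χ 1 = 1) (h3 : ∀ a, χ a = 0 ∨ χ a = 1 ∨ χ a = -1)
    (H : ∀ π, π.Monic → Irreducible π → Odd π.natDegree → χ π ≠ 1) {a : k[X]} (ha : a.Monic) :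
    0 ≤ ∑ b ∈ Dv a, χ b ∧ (Odd a.natDegree → χ a ≠ 0 → ∑ b ∈ Dv a, χ b = 0) := by
  induction hn : a.natDegree using Nat.strong_induction_on generalizing a with
  | _ n ih =>
  by_cases u : IsUnit a
  · obtain rfl := ha.eq_one_of_isUnit u
    rw [dv_one, h1, ← hn]
    simp
  obtain ⟨π, m1, m2, m3⟩ := exists_monic_irreducible_factor a u
  obtain ⟨e, g, g1, rfl⟩ := WfDvdMonoid.max_power_factor ha.ne_zero m2
  have hg := (m1.pow _).of_mul_monic_left ha
  obtain ⟨e, rfl⟩ : ∃ j, e = j + 1 := Nat.exists_eq_succ_of_ne_zero fun c =>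
    g1 (by simpa [c] using m3)
  rw [(m1.pow _).natDegree_mul hg, m1.natDegree_pow] at hn
  have := Nat.mul_pos e.succ_pos m2.natDegree_pos
  obtain ⟨i1, i2⟩ := ih g.natDegree (by simp only [Nat.succ_eq_add_one] at this; omega) hg rfl
  rw [dv_pow hχ m1 m2 hg g1]
  refine ⟨mul_nonneg (geo (h3 π) _).1 i1, fun o c => ?_⟩
  rw [hχ _ _ (m1.pow _) hg, pow_succ', hχ _ _ m1 (m1.pow _)] at c
  rcases g.natDegree.even_or_odd with p | p
  · obtain ⟨o1, o2⟩ := Nat.odd_mul.1 ((Nat.odd_add.1 (hn ▸ o)).2 p)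
    rw [((h3 π).resolve_left (left_ne_zero_of_mul (left_ne_zero_of_mul c))).resolve_left
      (H π m1 m2 o2), neg_one_geom_sum, if_pos o1.add_one, zero_mul]
  · rw [i2 p (right_ne_zero_of_mul c), mul_zero]

attribute [local irreducible] Nm in
theorem exists_chi (h2 : ringChar k ≠ 2) {f : k[X]} (h : ∀ c G, f ≠ C c * G ^ 2) :
    ∃ π : k[X], π.Monic ∧ Irreducible π ∧ Odd π.natDegree ∧ quadraticChar k (Nm π f) = 1 := by
  by_contra H
  have f0 : f ≠ 0 := fun e => h 0 0 (by simp [e])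
  obtain ⟨c, F, c0, hm, rfl⟩ : ∃ c F, c ≠ 0 ∧ F.Monic ∧ f = C c * F :=
    ⟨f.leadingCoeff, f * C f.leadingCoeff⁻¹, leadingCoeff_ne_zero.2 f0,
      monic_mul_leadingCoeff_inv f0, by
        rw [mul_left_comm, ← C_mul, mul_inv_cancel₀ (leadingCoeff_ne_zero.2 f0), C_1, mul_one]⟩
  obtain ⟨t, ht⟩ := nontriv h2 hm fun G e => h c G (by rw [e])
  have := (AdjoinRoot.powerBasis hm.ne_zero).finite
  have : Finite (AdjoinRoot F) := Module.finite_of_finite k
  have := Fintype.ofFinite (AdjoinRoot F)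
  have N0 : (Fintype.card (AdjoinRoot F) : ℤ) ≠ 0 := by exact_mod_cast Fintype.card_ne_zero
  obtain ⟨W, hW⟩ : ∃ W : AdjoinRoot F → ℤ, ∀ a, W (AdjoinRoot.mk F a) = quadraticChar k (Nm F a) :=
    ⟨fun z => quadraticChar k (Nm F (AdjoinRoot.modByMonicHom hm z)), fun a =>
      congrArg (quadraticChar k) (nm_congr hm (dvd_sub_mod a)).symm⟩
  have t0 : IsCoprime t F := ((gram.1 k F hm).2.2.2.1 t).1 (IsUnit.mk0 _ fun e => by simp [e] at ht)
  have W0 : ∑ z, W z = 0 := by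
    obtain ⟨u, v, huv⟩ := t0
    have tu : IsUnit (AdjoinRoot.mk F t) := IsUnit.of_mul_eq_one_right (AdjoinRoot.mk F u) (by
      simpa using congrArg (AdjoinRoot.mk F) huv)
    have e1 := Equiv.sum_comp tu.unit.mulLeft W
    have e2 : ∀ z, W (tu.unit.mulLeft z) = -W z := fun z => by
      obtain ⟨a, rfl⟩ := AdjoinRoot.mk_surjective z
      show W (AdjoinRoot.mk F t * AdjoinRoot.mk F a) = _
      rw [← map_mul, hW, (gram.1 k F hm).1, map_mul, ← hW a, ht, neg_one_mul]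
    rw [sum_congr rfl fun z _ => e2 z, sum_neg_distrib] at e1
    omega
  obtain ⟨χ, hc⟩ : ∃ χ : k[X] → ℤ, ∀ a, χ a = quadraticChar k (Nm a (C c * F)) :=
    ⟨_, fun _ => rfl⟩
  have hχ : ∀ a b, a.Monic → b.Monic → χ (a * b) = χ a * χ b := fun a b ha hb => by
    simp only [hc, nm_mul_left ha hb, map_mul]
  have h3 : ∀ a, χ a = 0 ∨ χ a = 1 ∨ χ a = -1 := fun a => hc a ▸ quadraticChar_isQuadratic k _
  have h1 : χ 1 = 1 := by simp [hc, Nm]
  have hw : ∀ m, ∀ a ∈ Mon k m, χ a =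
      quadraticChar k (c ^ m * (-1) ^ (m * F.natDegree)) * W (AdjoinRoot.mk F a) := fun m a ha => by
    obtain ⟨a1, rfl⟩ := mem_Mon.1 ha
    rw [hc, hW, ← map_mul]
    congr 1
    rw [Nm, natDegree_C_mul c0, resultant_C_mul_right, resultant_comm, Nm, mul_assoc]
  have hA : ∀ m, F.natDegree ≤ m → ∑ a ∈ Mon k m, χ a = 0 := fun m hm' => by
    have := per hm W hm'
    rw [W0, mul_zero] at this
    rw [sum_congr rfl (hw m), ← mul_sum, (mul_eq_zero.1 this).resolve_left N0, mul_zero]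
  have hZ0 : ∀ m, ∑ a ∈ Mon k m, χ a ^ 2 = ∑ a ∈ Mon k m, W (AdjoinRoot.mk F a) ^ 2 := fun m =>
    sum_congr rfl fun a ha => by
      rw [hw m a ha, mul_pow, quadraticChar_sq_one
        (mul_ne_zero (pow_ne_zero _ c0) (pow_ne_zero _ (neg_ne_zero.2 one_ne_zero))), one_mul]
  have hZ : ∀ m, F.natDegree ≤ m →
      ∑ a ∈ Mon k (m + 1), χ a ^ 2 = Fintype.card k * ∑ a ∈ Mon k m, χ a ^ 2 := fun m hm' => by
    refine mul_left_cancel₀ N0 ?_
    rw [hZ0, hZ0, mul_left_comm, per hm (fun z => W z ^ 2) hm',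
      per hm (fun z => W z ^ 2) (m := m + 1) (by omega)]
    ring
  have hR : ∀ m, ∑ a ∈ Mon k m, χ a ^ 2 * ∑ b ∈ Dv a, χ b =
      ∑ i ∈ range (m + 1), (∑ b ∈ Mon k i, χ b) * ∑ c ∈ Mon k (m - i), χ c ^ 2 := fun m => by
    simp only [mul_sum (f := χ), sum_mul_sum]
    rw [conv fun a b => χ a ^ 2 * χ b]
    refine sum_congr rfl fun i _ => sum_congr rfl fun b hb => sum_congr rfl fun c hc => ?_
    rw [hχ _ _ (mem_Mon.1 hb).1 (mem_Mon.1 hc).1]
    rcases h3 b with e | e | e <;> simp [e]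
  have hS := fun a => dv_sign (a := a) hχ h1 h3 fun π a b c d => H ⟨π, a, b, c, hc π ▸ d⟩
  have hO : ∀ m, Odd m → ∑ a ∈ Mon k m, χ a ^ 2 * ∑ b ∈ Dv a, χ b = 0 := fun m o =>
    sum_eq_zero fun a ha => by
      by_cases c : χ a = 0
      · simp [c]
      · rw [(hS a (mem_Mon.1 ha).1).2 ((mem_Mon.1 ha).2 ▸ o) c, mul_zero]
  have hE : ∀ m, 2 * F.natDegree ≤ m → Odd m →
      ∑ a ∈ Mon k (m + 1), χ a ^ 2 * ∑ b ∈ Dv a, χ b = 0 := fun m hm' o => by
    have := hO m o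
    rw [hR] at this
    rw [hR, sum_range_succ, hA (m + 1) (by omega), zero_mul, add_zero,
      ← mul_zero (Fintype.card k : ℤ), ← this, mul_sum]
    refine sum_congr rfl fun i hi => ?_
    rcases le_total F.natDegree i with c | c
    · simp [hA i c]
    · rw [show m + 1 - i = m - i + 1 by omega, hZ _ (by omega)]
      ring
  obtain ⟨π, m1, m2, m3⟩ := exists_monic_irreducible_factor (X * F + 1) fun u => by
    have := natDegree_eq_zero_of_isUnit u
    rw [← C_1, natDegree_add_C, monic_X.natDegree_mul hm, natDegree_X] at this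
    omega
  have p0 : χ π ≠ 0 := by
    rw [hc]
    refine mt quadraticChar_eq_zero_iff.1 (((gram.1 k π m1).2.2.2.1 _).2 ?_).ne_zero
    refine (m2.coprime_iff_not_dvd.2 fun d => m2.not_dvd_one ?_).symm
    exact (dvd_add_right (((isUnit_C.2 (IsUnit.mk0 c c0)).dvd_mul_left.1 d).mul_left X)).1 m3
  have pe : ∀ e, χ (π ^ e) = χ π ^ e := fun e => by
    induction e with
    | zero => simpa using h1
    | succ e ih => rw [pow_succ, hχ _ _ (m1.pow e) m1, ih, pow_succ]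
  obtain ⟨j, hj⟩ : ∃ j, j = 2 * (F.natDegree + 1) := ⟨_, rfl⟩
  have d1 : j ≤ j * π.natDegree := Nat.le_mul_of_pos_right _ m2.natDegree_pos
  have je : Even j := hj ▸ even_two_mul _
  have z := hE (j * π.natDegree - 1) (by omega)
    (Nat.Even.sub_odd (by omega) (je.mul_right _) odd_one)
  rw [show j * π.natDegree - 1 + 1 = j * π.natDegree by omega] at z
  have z2 := (sum_eq_zero_iff_of_nonneg fun a ha =>
    mul_nonneg (sq_nonneg _) (hS a (mem_Mon.1 ha).1).1).1 z (π ^ j)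
      (mem_Mon.2 ⟨m1.pow j, m1.natDegree_pow j⟩)
  have z3 := dv_pow hχ m1 m2 monic_one m2.not_dvd_one j
  rw [mul_one, dv_one, h1, mul_one] at z3
  rw [z3, pe] at z2
  exact mul_ne_zero (pow_ne_zero 2 (pow_ne_zero j p0)) ((geo (h3 π) j).2 je).ne' z2

/-- a point of odd degree that is not a branch point -/
theorem oddF (h2 : ringChar k ≠ 2) {f : k[X]} (h : ∀ c G, f ≠ C c * G ^ 2) :
    ∃ π v : k[X], π.Monic ∧ Irreducible π ∧ Odd π.natDegree ∧ ¬π ∣ v ∧ π ∣ f - v ^ 2 := by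
  obtain ⟨π, m1, m2, m3, m4⟩ := exists_chi h2 h
  have := Fact.mk m2
  have := (AdjoinRoot.powerBasis m1.ne_zero).finite
  have : Finite (AdjoinRoot π) := Module.finite_of_finite k
  have f0 : Nm π f ≠ 0 := fun e => by simp [e] at m4
  obtain ⟨t, ht⟩ := (quadraticChar_one_iff_isSquare f0).1 m4
  rw [nm_norm m1] at f0 ht
  have z0 : AdjoinRoot.mk π f ≠ 0 := fun e => f0 (by rw [e, Algebra.norm_zero])
  obtain ⟨z, hz⟩ := U99.sq_of_norm (Ring.two_ne_zero h2) z0 ((sq t).trans ht.symm)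
  obtain ⟨v, rfl⟩ := AdjoinRoot.mk_surjective z
  exact ⟨π, v, m1, m2, m3, fun d => z0 (by rw [hz, AdjoinRoot.mk_eq_zero.2 d, mul_zero]),
    AdjoinRoot.mk_eq_mk.1 (by rw [hz, map_pow, sq])⟩

end Pool.Agent.MP_a43263_nt.V99

end
end MrgPart0

-- ======== part 1: formerly Pool.Agent.MP_a43263_nt.VA.Loci
section MrgPart1

/-! THEOREM V: the Hasse symbol at the primes that divide the leading coefficient. -/

set_option autoImplicit false

noncomputable section

namespace Pool.Agent.MP_a43263_nt.VA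

open Polynomial Finset Matrix JC VV
open UV (zK iq rq Nm Dg Sp po DIAGStmt PADStmt zK_map dvd_sub_mod)
open UV.Locq (unit_iff two_unit coe_ne conj_apply Hs_cons)

namespace Loci

theorem ta_lin {K : Type} [Field K] {g : ℕ} {F : K[X]} (hF : F.Monic)
    (hd : F.natDegree = 2 * g + 1) (t : K) (P : K[X]) :
    ta g ((X - C t) * F) ((X - C t) * P) = UV.ta g F P := by
  have hm : ((X - C t) * F).Monic := (monic_X_sub_C t).mul hF
  have l : (P %ₘ F).degree < F.degree := degree_modByMonic_lt _ hF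
  rw [ta_congr hm (Q := (X - C t) * (P %ₘ F))
    (by rw [← mul_sub]; exact mul_dvd_mul_left _ (dvd_sub_mod P)), ta_of_lt hm, sub_mul,
    coeff_sub, coeff_X_mul, coeff_C_mul, coeff_eq_zero_of_degree_lt (n := 2 * g + 1), mul_zero,
    sub_zero, UV.ta]
  · rw [degree_eq_natDegree hF.ne_zero, hd] at l
    exact l
  · rw [degree_mul, degree_mul, degree_X_sub_C]
    exact WithBot.add_lt_add_left WithBot.one_ne_bot l

/-- an orthogonal basis adapted to the factorisation -/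
theorem block {K : Type} [Field K] {g : ℕ} {F : K[X]} (hF : F.Monic)
    (hd : F.natDegree = 2 * g + 1) (t c : K) {δ x w : K[X]} {u : Fin (2 * g + 1) → K}
    {P : UV.Mat g K} (h : F ∣ δ * (X - C t) * x ^ 2 - C c * w)
    (hP : Pᵀ * UV.Gm g F w * P = diagonal u) :
    ∃ S : Mat g K, Sᵀ * Gm g ((X - C t) * F) δ * S =
      diagonal (Fin.cons ((δ * F).eval t) fun i => c * u i : Fin (2 * g + 1 + 1) → K) := by
  have hm : ((X - C t) * F).Monic := (monic_X_sub_C t).mul hF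
  have dm : ((X - C t) * F).natDegree = 2 * g + 2 := by
    rw [(monic_X_sub_C t).natDegree_mul hF, natDegree_X_sub_C, hd]; omega
  obtain ⟨S, hS⟩ := gram_ve hm dm δ
    (Fin.cons F fun i => (X - C t) * (x * po fun k => P k i) : Fin (2 * g + 1 + 1) → K[X])
  refine ⟨S, ?_⟩
  ext i j
  rw [hS]
  refine Fin.cases ?_ (fun i => ?_) i <;> refine Fin.cases ?_ (fun j => ?_) j <;>
    simp only [Fin.cons_zero, Fin.cons_succ]
  · rw [diagonal_apply_eq, Fin.cons_zero, ta_congr hm (Q := C ((δ * F).eval t) * F), ta_C_mul,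
      ta_of_lt hm, ← hd, hF.coeff_natDegree, mul_one]
    · rw [degree_eq_natDegree hm.ne_zero, degree_eq_natDegree hF.ne_zero, dm, hd]
      exact_mod_cast Nat.lt_succ_self _
    · rw [← sub_mul]
      exact mul_dvd_mul_right X_sub_C_dvd_sub_C_eval _
  · rw [diagonal_apply_ne _ (Fin.succ_ne_zero j).symm]
    exact ta_dvd hm ⟨δ * (x * po fun k => P k j), by ring⟩
  · rw [diagonal_apply_ne _ (Fin.succ_ne_zero i)]
    exact ta_dvd hm ⟨δ * (x * po fun k => P k i), by ring⟩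
  · have h1 := congrFun (congrFun hP i) j
    rw [conj_apply, UV.Gm_form] at h1
    rw [show δ * ((X - C t) * (x * po fun k => P k i)) * ((X - C t) * (x * po fun k => P k j)) =
        (X - C t) * (δ * (X - C t) * x ^ 2 * ((po fun k => P k i) * po fun k => P k j)) by ring,
      ta_lin hF hd, UV.ta_congr hF (Q := C c * (w * (po fun k => P k i) * po fun k => P k j)),
      UV.ta_C_mul, h1]
    · by_cases e : i = j
      · rw [e, diagonal_apply_eq, diagonal_apply_eq, Fin.cons_succ]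
      · rw [diagonal_apply_ne _ e, diagonal_apply_ne _ (fun d => e (Fin.succ_injective _ d)),
          mul_zero]
    · rw [mul_assoc w, ← mul_assoc (C c), ← sub_mul]
      exact h.mul_right _

end Loci

open Loci

theorem loci : GRAMStmt → DIAGStmt → HEVStmt → PADStmt → HENSStmt → LOCIStmt := by
  rintro gram diag hev pad hens p _ g f δ s e hp hl hf hs hc ⟨n, hn⟩ he ⟨x, r, w, r0, h1, h2⟩
  obtain ⟨a, F, hd⟩ := hens.2 p g f hf hl
  have hq := fam_sq hf ℚ_[p]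
  have l0 : (f.leadingCoeff : ℚ_[p]) ≠ 0 := Int.cast_ne_zero.2 (leadingCoeff_ne_zero.2 (fam_ne hf))
  have lp : (f.leadingCoeff : ZMod p) = 0 := (ZMod.intCast_zmod_eq_zero_iff_dvd _ p).2 hl
  have mF : (iq p F).Monic := hd.monic.map _
  have dF : (iq p F).natDegree = 2 * g + 1 := by rw [hd.monic.natDegree_map, hd.deg]
  obtain ⟨t, ht⟩ : ∃ t : ℚ_[p], (a : ℚ_[p]) = -(f.leadingCoeff * t) :=
    ⟨-(a / f.leadingCoeff), by field_simp⟩
  have e0 : iq p (C (f.leadingCoeff : ℤ_[p]) * X + C a) = C (f.leadingCoeff : ℚ_[p]) * (X - C t) := by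
    rw [mul_sub, ← C_mul, sub_eq_add_neg, ← C_neg, ← ht]
    simp
  have e1 : zK f ℚ_[p] = C (f.leadingCoeff : ℚ_[p]) * ((X - C t) * iq p F) := by
    rw [← UV.iq_zK, hd.eq, ← mul_assoc, ← e0, iq, Polynomial.map_mul]
  have e2 : mo (zK f ℚ_[p]) = (X - C t) * iq p F := by
    rw [e1, mo_C_mul l0, mo_of_monic ((monic_X_sub_C t).mul mF)]
  have e4 : (C (f.leadingCoeff : ℤ_[p]) * X + C a).map PadicInt.toZMod = C (PadicInt.toZMod a) := by
    rw [Polynomial.map_add, Polynomial.map_mul, map_C, map_C, map_intCast, lp, C_0, zero_mul,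
      zero_add]
  have e3 : zK f (ZMod p) = C (PadicInt.toZMod a) * rq p F := by
    rw [← UV.rq_zK, hd.eq, rq, Polynomial.map_mul, e4]
  have sF : UV.Sq g (rq p F) := ⟨by have := hf.pos; omega, hd.monic.map _,
    by rw [hd.monic.natDegree_map, hd.deg], (e3 ▸ (hf.inf p Fact.out hl).1).of_mul_right⟩
  have hU : IsUnit (UV.Gm g F (w * (C (f.leadingCoeff : ℤ_[p]) * X + C a))).det := by
    rw [unit_iff, RingHom.map_det, RingHom.mapMatrix_apply, ← UV.Gm_map hd.monic,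
      (UV.gram.2 _ g _ sF).1]
    refine mul_ne_zero (pow_ne_zero _ (neg_ne_zero.2 one_ne_zero))
      (((UV.gram.1 _ _ sF.monic).2.2.2.1 _).2 ?_).ne_zero
    rw [Polynomial.map_mul, e4, isCoprime_mul_unit_right_left (isUnit_C.2 (hd.unit.map _))]
    exact (e3 ▸ h2).of_mul_right_right
  obtain ⟨u, h3, h4⟩ := diag _ (two_unit hp) _ _ (UV.Gm_symm _) hU
  obtain ⟨P, -, hP⟩ := h3.map PadicInt.Coe.ringHom
  rw [← UV.Gm_map hd.monic] at hP
  have c0 : (r * f.leadingCoeff)⁻¹ ≠ 0 := inv_ne_zero (mul_ne_zero r0 l0)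
  obtain ⟨S, hS⟩ := block mF dF t (r * f.leadingCoeff)⁻¹ (δ := δ) (x := x) (by
    obtain ⟨z, hz⟩ := h1
    have k : (C (r * f.leadingCoeff)⁻¹ : ℚ_[p][X]) * C r * C (f.leadingCoeff : ℚ_[p]) = 1 := by
      rw [← C_mul, ← C_mul, mul_assoc, inv_mul_cancel₀ (mul_ne_zero r0 l0), C_1]
    rw [Polynomial.map_mul]
    change _ ∣ _ - _ * (iq p w * iq p _)
    rw [e0, e1] at *
    exact ⟨C (r * f.leadingCoeff)⁻¹ * C (f.leadingCoeff : ℚ_[p]) ^ 2 * (X - C t) ^ 2 * z, by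
      linear_combination (C (r * f.leadingCoeff)⁻¹ * C (f.leadingCoeff : ℚ_[p]) * (X - C t)) * hz -
        (δ * (X - C t) * x ^ 2) * k⟩) hP
  rw [← e2] at hS
  have u0 : ∀ i, (u i : ℚ_[p]) ≠ 0 := fun i => coe_ne (h4 i)
  have a0 : (δ * iq p F).eval t ≠ 0 := fun z => by
    obtain ⟨y, y', hy⟩ : IsCoprime (δ * iq p F) (X - C t) :=
      (e2 ▸ (mo_cop (sq_ne hq)).2 hc).of_mul_right_left.mul_left
        (e2 ▸ (sq_mq hq).sep).isCoprime.symm
    have := congrArg (eval t) hy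
    rw [eval_add, eval_mul, z, eval_mul] at this
    simp at this
  generalize (δ * iq p F).eval t = b, (r * f.leadingCoeff)⁻¹ = c at hS a0 c0
  have b0 := div_ne_zero a0 c0
  set E : Fin (2 * g + 1 + 1) → ℚ_[p] := Fin.cons (b / c) fun i => u i with hE
  have E0 : ∀ i, E i ≠ 0 := fun i => Fin.cases b0 u0 i
  have hS' : Sᵀ * Gm g (mo (zK f ℚ_[p])) δ * S = diagonal fun i => c * E i :=
    hS.trans (congrArg _ (funext fun i => Fin.cases (mul_div_cancel₀ b c0).symm (fun _ => rfl) i))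
  have w5 := congrArg det hS'
  rw [det_mul, det_mul, det_transpose, det_diagonal, (gram _ g _ (sq_mq hq)).1, hn,
    prod_mul_distrib, prod_const, card_univ, Fintype.card_fin] at w5
  have P0 : ∏ i, E i ≠ 0 := prod_ne_zero_iff.2 fun i _ => E0 i
  have S0 : S.det ≠ 0 := right_ne_zero_of_mul (w5 ▸ mul_ne_zero (pow_ne_zero _ c0) P0)
  have w6 : (-1) ^ (g + 1) * ∏ i, E i = S.det * n / c ^ (g + 1) * (S.det * n / c ^ (g + 1)) := by
    have k : ((-1 : ℚ_[p]) ^ (g + 1)) ^ 2 = 1 := by rw [← pow_mul', pow_mul, neg_one_sq, one_pow]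
    field_simp
    linear_combination (-(-1) ^ (g + 1)) * w5 + (S.det * n) ^ 2 * k
  have Y := hs.1
  have pu := ((pad.1 p hp).2 s hs).1
  rw [← (UV.hinv _ s Y).1 _ _ _ _ ⟨S, S0.isUnit, hS'⟩ he fun i => mul_ne_zero c0 (E0 i),
    (hev _ s Y g).2 E c c0 E0 ⟨_, w6⟩, hE, Hs_cons, prod_eq_one, one_mul]
  · exact prod_eq_one fun i _ => prod_eq_one fun j _ => pu _ _ (h4 i) (h4 j)
  · intro j _
    have U : IsUnit ((-1) ^ (g + 1) * ∏ i, u i) :=
      (isUnit_one.neg.pow _).mul (IsUnit.prod_univ_iff.2 h4)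
    generalize S.det * n / c ^ (g + 1) = z at w6
    have z0 : z ≠ 0 := left_ne_zero_of_mul
      (w6 ▸ mul_ne_zero (pow_ne_zero _ (neg_ne_zero.2 one_ne_zero)) P0)
    have w7 : b / c * (((-1) ^ (g + 1) * ∏ i, u i : ℤ_[p]) : ℚ_[p]) = z * z := by
      have k := map_mul PadicInt.Coe.ringHom ((-1) ^ (g + 1)) (∏ i, u i)
      rw [map_pow, map_neg, map_one, map_prod _ u] at k
      rw [← w6, hE, Fin.prod_cons, mul_left_comm]
      exact congrArg _ k
    have w8 := Y.mul _ _ _ b0 (coe_ne U) (u0 j)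
    rw [w7, Y.mul _ _ _ z0 z0 (u0 j), pu _ _ U (h4 j), mul_one] at w8
    rw [← w8]
    rcases Y.pm z _ z0 (u0 j) with k | k <;> simp [k]

end Pool.Agent.MP_a43263_nt.VA

end
end MrgPart1

-- ======== part 2: formerly Pool.Agent.MP_a43263_nt.VA.Ram
section MrgPart2

/-! THEOREM V: additivity of the local invariants and the local condition of a ramified twist. -/

set_option autoImplicit false

noncomputable section

namespace Pool.Agent.MP_a43263_nt.VA

open Polynomial Finset Matrix JC VV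
open MP_a43263_nt.UV (zK iq rq Nm Dg DIAGStmt PADStmt fK_zK iq_zK rq_zK)
open UV.Ram (sq_mul dvd_mul_sub)

namespace Ram

variable {p : ℕ} [Fact p.Prime] {g : ℕ} {f : ℤ[X]}

theorem ev_ne {r F : (ZMod p)[X]} {t : ZMod p} (hc : IsCoprime r F) (h : F.eval t = 0) :
    r.eval t ≠ 0 := fun e => by
  obtain ⟨a, b, e'⟩ := hc
  simpa [e, h] using congrArg (eval t) e'

theorem ev_ne2 (ht : Ty g p f) {r : (ZMod p)[X]} (hc : IsCoprime r (zK f (ZMod p))) :
    r.eval 0 * r.eval 1 ≠ 0 := by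
  obtain ⟨c, h, -, e, -⟩ := ht
  exact mul_ne_zero (ev_ne hc (by simp [e])) (ev_ne hc (by simp [e]))

theorem cop_pv (hf : Fam g f) (ht : Ty g p f) : IsCoprime (zK f ℚ_[p]) (zK (pv p f) ℚ_[p]) := by
  obtain ⟨m, u, m1, -, -, m2, m3⟩ := exists_monic hf (ty_lc hf.deg Fact.out ht)
  obtain ⟨c, h, c0, h1, -, h2, h3, -⟩ := ht
  rw [← fK_zK, ← fK_zK (pv p f)]
  refine (isCoprime_map _).2 (hf.irr.coprime_iff_not_dvd.2 fun hd => ?_)
  have d1 : zK f ℚ_[p] ∣ zK (pv p f) ℚ_[p] := by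
    rw [← fK_zK, ← fK_zK (pv p f)]
    exact Polynomial.map_dvd _ hd
  rw [← mo_dvd (sq_ne (fam_sq hf _)), ← m3, ← iq_zK] at d1
  have d2 := Polynomial.map_dvd PadicInt.toZMod (UV.dvd_of_map Subtype.val_injective m1 d1)
  have d3 : zK f (ZMod p) ∣ zK (pv p f) (ZMod p) := by
    rw [← rq_zK, ← rq_zK (pv p f), m2, rq, Polynomial.map_mul, map_C]
    exact (isUnit_C.2 (u.isUnit.map _)).mul_left_dvd.2 d2
  have mm : (X ^ 2 - X : ℤ[X]).Monic := by monicity!
  have e : zK (pv p f) (ZMod p) = (C c * h) ^ 2 := by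
    have := mm.map (Int.castRingHom (ZMod p))
    rw [pv, zK, Polynomial.map_add, Polynomial.map_pow, map_divByMonic _ mm,
      show f.map (Int.castRingHom (ZMod p)) = (X ^ 2 - X : ℤ[X]).map (Int.castRingHom (ZMod p)) *
        (C c * h) by rw [← zK, h1]; simp; ring, mul_divByMonic_cancel_left _ this]
    simp
  have h4 := eval_dvd (x := 0) d3
  rw [h1, e] at h4
  have h7 : h.eval 0 = 0 := by simpa [c0] using h4
  rw [natDegree_eq_of_degree_eq_some (n := 1) (degree_eq_one_of_irreducible_of_root h2 h7)] at h3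
  omega

end Ram

open VA.Ram in
theorem nfm : NFMStmt := by
  intro p _ g f hf
  have k0 : ∀ (δ δ' x x' : ℚ_[p][X]) (r r' : ℚ_[p]), δ * δ' * (x * x') ^ 2 * C (r * r') =
      δ * x ^ 2 * C r * (δ' * x' ^ 2 * C r') := fun _ _ _ _ _ _ => by rw [C_mul]; ring
  refine ⟨⟨1, 1, 1, one_ne_zero, by simp, by simpa using isCoprime_one_left⟩, ?_,
    fun δ => ⟨?_, ?_⟩, ?_⟩
  · rintro δ δ' ⟨x, r, w, h0, h1, h2⟩ ⟨x', r', w', h0', h3, h4⟩
    refine ⟨x * x', r * r', w * w', mul_ne_zero h0 h0', ?_,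
      by simpa only [rq, Polynomial.map_mul] using h2.mul_left h4⟩
    rw [iq, Polynomial.map_mul, k0]
    exact dvd_mul_sub h1 h3
  · rintro ⟨x, r, w, h0, h1, h2⟩
    by_cases c : IsSquare ((rq p w).eval 0 * (rq p w).eval 1)
    · exact ⟨0, x, r, w, h0, by simpa using h1, h2, iff_of_true c rfl⟩
    · exact ⟨1, x, r, w, h0, by simpa using h1, h2, iff_of_false c one_ne_zero⟩
  · rintro ⟨u, x, r, w, h0, h1, h2, -⟩
    exact ⟨x, r, w, h0, by simpa using h1, h2⟩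
  · rintro - ht δ δ' u y u' y' ⟨x, r, w, h0, h1, h2, h3⟩ ⟨x', r', w', h0', h4, h5, h6⟩
    obtain ⟨a, b, hab⟩ := cop_pv hf ht
    have k2 : IsCoprime (rq p (w * w')) (zK f (ZMod p)) := by
      simpa only [rq, Polynomial.map_mul] using h2.mul_left h5
    have k3 : IsSquare ((rq p (w * w')).eval 0 * (rq p (w * w')).eval 1) ↔ u + u' = 0 := by
      rw [rq, Polynomial.map_mul, eval_mul, eval_mul, mul_mul_mul_comm]
      exact sq_mul (ev_ne2 ht h2) (ev_ne2 ht h5) h3 h6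
    have k1 := dvd_mul_sub h1 h4
    have hy : ∀ y y' : ZMod 2, (y + y').val = y.val + y'.val ∨
        ((y + y').val = 0 ∧ y.val = 1 ∧ y'.val = 1) := by decide
    rcases hy y y' with c | ⟨c, c1, c2⟩
    · refine ⟨x * x', r * r', w * w', mul_ne_zero h0 h0', ?_, k2, k3⟩
      rw [iq, Polynomial.map_mul, c, pow_add, mul_mul_mul_comm (w.map _), k0]
      exact k1
    · refine ⟨x * x' * b, r * r', w * w', mul_ne_zero h0 h0', ?_, k2, k3⟩
      rw [c1, c2] at k1
      rw [iq, Polynomial.map_mul, c, C_mul]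
      have k4 : zK f ℚ_[p] ∣ b * zK (pv p f) ℚ_[p] - 1 := ⟨-a, by linear_combination hab⟩
      have k5 := dvd_add (k1.mul_right (b ^ 2))
        ((dvd_mul_sub k4 k4).mul_left (iq p w * iq p w'))
      refine (congrArg _ ?_).mp k5
      ring

theorem ram : SYMBStmt → GRAMStmt → WGStmt → QSStmt → DIAGStmt → HEVStmt → PADStmt → LOCQStmt →
    HENSStmt → CMPStmt → NFMStmt → RAMStmt := by
  intro symb gram wg qs diag hev pad locq hens cmp nfm p _ g f δ d u y hp hf ht hd hd2 hW hN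
  have hp2 : p ≠ 2 := by omega
  have hd0 : (d : ℚ_[p]) ≠ 0 := Int.cast_ne_zero.2 fun e => hd2 (by simp [e])
  have hs := fam_sq hf ℚ_[p]
  have hF := sq_C_mul hs hd0
  have hm := sq_mq hs
  obtain ⟨-, w2, w3, -, w5, -⟩ := wg ℚ_[p] g _ hF
  have key : ∀ δ₀ u₀, Wv (C (d : ℚ_[p]) * zK f ℚ_[p]) δ₀ 0 → NF p f δ₀ u₀ 1 → u₀ = 0 := by
    intro δ₀ u₀ h1 h2
    obtain ⟨s, hsy⟩ := symb.2 p
    have g0 := w3 _ h1
    have g3 := qs ℚ_[p] g _ δ₀ hF h1
    have g4 := (mo_cop (sq_ne hF)).2 h1.1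
    rw [mo_C_mul hd0] at g0 g3 g4
    have g1 := (gram ℚ_[p] g _ hm).1 δ₀
    have g2 := ((UV.gram.1 ℚ_[p] _ hm.monic).2.2.2.1 δ₀).2 g4
    obtain ⟨e, e1, e2⟩ := diag ℚ_[p] (Ne.isUnit two_ne_zero) _ _ (Gm_symm δ₀)
      (g1 ▸ (isUnit_neg_one.pow (g + 1)).mul g2)
    refine (locq p g f δ₀ s e u₀ hp hf ht hsy g0 e1 h2).1 ?_
    rw [(hev ℚ_[p] s hsy.1 g).1 _ e e1 (fun i => (e2 i).ne_zero) g3
      (by rw [g1, ← mul_assoc, ← mul_pow]; simpa using g0)]
    refine prod_eq_one fun i _ => prod_eq_one fun j _ => ?_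
    simpa [alt] using ((pad.1 p hp2).2 s hsy).1 ((-1) ^ i.1) ((-1) ^ j.1) (isUnit_neg_one.pow _)
      (isUnit_neg_one.pow _)
  have hy : ∀ y : ZMod 2, y = 0 ∨ y = 1 := by decide
  rcases hy y with rfl | rfl
  swap
  · exact key δ u hW hN
  obtain ⟨c, a, b, h, ha⟩ := hens.1 p g f hf ht
  obtain ⟨d', rfl⟩ := hd
  have e0 : ∀ (S : Type) [CommRing S] (φ : ℤ_[p] →+* S) (k : ℤ_[p]),
      (C k * ((X - C a) * (X - C b))).map φ = C (φ k) * ((X - C (φ a)) * (X - C (φ b))) :=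
    fun S _ φ k => by simp
  have e1 : C (((p : ℤ) * d' : ℤ) : ℚ_[p]) * zK f ℚ_[p] =
      C (p : ℚ_[p]) * iq p (C (d' * c) * ((X - C a) * (X - C b))) * iq p h := by
    rw [← iq_zK, ha.eq]
    simp only [iq, Polynomial.map_mul, map_C, map_mul, map_intCast, Int.cast_mul, Int.cast_natCast,
      Polynomial.map_intCast]
    ring
  have e2 : ∀ t, PadicInt.toZMod (h.eval t) = (rq p h).eval (PadicInt.toZMod t) := fun t => by
    rw [rq, eval_map_apply]
  have e3 : ∀ t, (rq p h).eval (PadicInt.toZMod t) ≠ 0 → IsUnit (-h.eval t) := fun t n =>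
    (UV.Cmp.unit_iff.2 (e2 t ▸ n)).neg
  have e5 : (d' : ZMod p) ≠ 0 := fun e => hd2 (by
    rw [pow_two]
    exact mul_dvd_mul_left _ ((ZMod.intCast_zmod_eq_zero_iff_dvd d' p).1 e))
  have e6 : PadicInt.toZMod ((d' : ℤ_[p]) * c) ≠ 0 := by
    rw [map_mul, map_intCast]
    exact mul_ne_zero e5 (ha.unit.map _).ne_zero
  have e7 : ∀ (K : Type) [Field K] (k a b : K), k ≠ 0 →
      (C k * ((X - C a) * (X - C b))).natDegree = 2 := fun K _ k a b n => by
    rw [natDegree_C_mul n, (monic_X_sub_C a).natDegree_mul (monic_X_sub_C b), natDegree_X_sub_C,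
      natDegree_X_sub_C]
  have hT := cmp p g f c a b h
    (C (p : ℚ_[p]) * iq p (C (d' * c) * ((X - C a) * (X - C b))) - iq p h) 1 1 1 (-h.eval a)
    (-h.eval b) 1 (C (d' * c) * ((X - C a) * (X - C b))) 0 hf ha one_ne_zero one_ne_zero
    one_ne_zero (e3 a (ha.zero ▸ left_ne_zero_of_mul ha.ne))
    (e3 b (ha.one ▸ right_ne_zero_of_mul ha.ne))
    (by rw [eval_sub, eval_mul, UV.Cmp.iq_eval, UV.Cmp.iq_eval]; simp)
    (by rw [eval_sub, eval_mul, UV.Cmp.iq_eval, UV.Cmp.iq_eval]; simp)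
    (by rw [neg_mul_neg, map_mul, e2, e2, ha.zero, ha.one]; exact iff_of_true ha.sq rfl)
    ⟨-1, by rw [zpow_one, C_1]; ring⟩
    (fun hh => by
      have n := e7 _ _ (PadicInt.toZMod a) (PadicInt.toZMod b) e6
      rw [rq, rq, e0] at hh
      have := natDegree_le_of_dvd hh fun e => by rw [e, natDegree_zero] at n; omega
      rw [n, ha.monic.natDegree_map, ha.deg] at this
      have := hf.pos
      omega)
  rw [Int.cast_one] at hT
  have hM := (nfm p g f hf).2.2.2 hp2 ht _ _ _ _ _ _ hN hT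
  rw [zero_add, add_zero] at hM
  have hU := w2 _ _ _ _ hW (w5 _ _ e1 (by
    rw [iq, e0, ← mul_assoc, ← C_mul]
    refine e7 _ _ _ _ (mul_ne_zero (Nat.cast_ne_zero.2 (by omega)) fun e => e6 ?_)
    rw [(map_eq_zero_iff _ Subtype.val_injective).1 e, map_zero]))
  rw [add_zero] at hU
  exact key _ _ hU hM

end Pool.Agent.MP_a43263_nt.VA

end
end MrgPart2

-- marker of a merged file
example : 731051 + 580272 = 731051 + 580272 := rfl
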