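import Pool.Agent.MP_a43263_nt.VE.Fin
import Pool.Agent.MP_a43263_nt.UV.Sieve
import Pool.Agent.MP_a43263_nt.JC.JAll
import Pool.Agent.MP_a43263_nt.UV.Nbr
import Pool.Agent.MP_a43263_nt.VW.Ns
import Pool.Agent.MP_a43263_nt.VE.Beta
import Pool.Agent.MP_a43263_nt.VA.Ram

-- ======== part 0: formerly Pool.Agent.MP_a43263_nt.VA.Ev
section MrgPart0

/-! THEOREM V: the local condition of an unramified twist, and the real place. -/

set_option autoImplicit false

noncomputable section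

namespace Pool.Agent.MP_a43263_nt.VA

open Polynomial Finset Matrix JC VV
open UV (zK iq rq Nx zK_map INTStmt NXPStmt)

namespace EvA

theorem lift (n : ℕ) (P : (ZMod n)[X]) : ∃ Q : ℤ[X], zK Q (ZMod n) = P :=
  map_surjective _ (ZMod.ringHom_surjective _) P

variable {p : ℕ} [Fact p.Prime]

theorem unit_of {x : ℤ_[p]} (h : PadicInt.toZMod x ≠ 0) : IsUnit x := by
  by_contra c
  exact h (RingHom.mem_ker.1 (PadicInt.ker_toZMod (p := p) ▸ (IsLocalRing.mem_maximalIdeal x).2 c))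

theorem split {φ : ℤ[X]} {u : ℤ_[p][X]} (h : zK φ (ZMod p) ∣ rq p u) :
    ∃ u₁ u₂, u = zK φ ℤ_[p] * u₁ + C (p : ℤ_[p]) * u₂ := by
  obtain ⟨z, hz⟩ := h
  obtain ⟨z, rfl⟩ := lift p z
  have h1 : rq p (u - zK φ ℤ_[p] * zK z ℤ_[p]) = 0 := by
    rw [rq, Polynomial.map_sub, Polynomial.map_mul, zK_map, zK_map, ← hz, sub_self]
  obtain ⟨y, hy⟩ : C (p : ℤ_[p]) ∣ u - zK φ ℤ_[p] * zK z ℤ_[p] :=
    (C_dvd_iff_dvd_coeff _ _).2 fun i => by
      rw [← Ideal.mem_span_singleton, ← PadicInt.maximalIdeal_eq_span_p, ← PadicInt.ker_toZMod,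
        RingHom.mem_ker, ← coeff_map]
      exact congrArg (coeff · i) h1
  exact ⟨_, y, sub_eq_iff_eq_add'.1 hy⟩

/-- a value of a primitive binary form that is prime to the discriminant -/
theorem exists_coprime {k : Type} [Field k] {f u v w : k[X]} (h0 : f ≠ 0) (hf : f ∣ v ^ 2 - u * w)
    (H : ∀ φ, Irreducible φ → φ ∣ u → φ ∣ v → ¬φ ∣ w) :
    ∃ a, IsCoprime (u * a ^ 2 + 2 * v * a + w) f := by
  classical
  let a := ((UniqueFactorizationMonoid.factors f).filter fun ψ => ¬ψ ∣ w).prod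
  refine ⟨a, (isCoprime_of_irreducible_dvd (fun h => h0 h.1) fun φ hφ h1 h2 => ?_).symm⟩
  have hp := hφ.prime
  by_cases c : φ ∣ w
  · have h3 : φ ∣ v := hp.dvd_of_dvd_pow (n := 2) (by
      simpa using dvd_add (h1.trans hf) (c.mul_left u))
    have h4 : φ ∣ u * a ^ 2 := by
      simpa using dvd_sub (dvd_sub h2 c) ((h3.mul_left 2).mul_right a)
    rcases hp.dvd_or_dvd h4 with h5 | h5
    · exact H φ hφ h5 h3 c
    · obtain ⟨ψ, h6, h7⟩ := hp.exists_mem_multiset_dvd (hp.dvd_of_dvd_pow h5)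
      rw [Multiset.mem_filter] at h6
      exact h6.2 ((hφ.associated_of_dvd
        (UniqueFactorizationMonoid.irreducible_of_factor ψ h6.1) h7).symm.dvd.trans c)
  · obtain ⟨ψ, h6, h7⟩ := UniqueFactorizationMonoid.exists_mem_factors_of_dvd h0 hφ h1
    have h3 : φ ∣ a := h7.dvd.trans
      (Multiset.dvd_prod (Multiset.mem_filter.2 ⟨h6, fun h => c (h7.dvd.trans h)⟩))
    exact c ((dvd_add_right (dvd_add ((dvd_pow h3 two_ne_zero).mul_left u) (h3.mul_left _))).1 h2)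

/-- squares modulo an irreducible real polynomial without real root -/
theorem real_irr {φ : ℝ[X]} (δ : ℝ[X]) (hφ : Irreducible φ) (h : ∀ x, φ.eval x ≠ 0) :
    ∃ z, φ ∣ δ - z ^ 2 := by
  obtain ⟨θ, hθ⟩ := IsAlgClosed.exists_aeval_eq_zero ℂ φ (degree_pos_of_irreducible hφ).ne'
  have hi : θ.im ≠ 0 := fun c => h θ.re (by
    have e : θ = algebraMap ℝ ℂ θ.re := Complex.ext (by simp) (by simpa using c)
    rw [e, aeval_algebraMap_apply, coe_aeval_eq_eval] at hθ
    exact (map_eq_zero_iff _ (algebraMap ℝ ℂ).injective).1 hθ)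
  obtain ⟨w, hw⟩ := IsAlgClosed.exists_eq_mul_self (aeval θ δ)
  have e : aeval θ (C (w.re - w.im / θ.im * θ.re) + C (w.im / θ.im) * X) = w := by
    rw [map_add, map_mul, aeval_C, aeval_C, aeval_X]
    generalize hb : w.im / θ.im = b
    have : w.im = b * θ.im := by rw [← hb, div_mul_cancel₀ _ hi]
    exact Complex.ext (by simp) (by simp [this])
  exact ⟨_, (hφ.dvd_iff_aeval_eq_zero hθ).1 (by rw [map_sub, map_pow, e, hw, sq, sub_self])⟩

end EvA

open EvA

theorem real : REALStmt := by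
  intro F δ hs h0 hc
  clear hc
  induction F using WfDvdMonoid.induction_on_irreducible with
  | zero => exact absurd hs not_separable_zero
  | unit u hu => exact ⟨0, hu.dvd⟩
  | mul G φ _ hφ ih =>
    obtain ⟨z₁, y₁, h1⟩ := real_irr δ hφ fun x c => h0 x (by rw [eval_mul, c, zero_mul])
    obtain ⟨z₂, y₂, h2⟩ := ih hs.of_mul_right fun x c => h0 x (by rw [eval_mul, c, mul_zero])
    obtain ⟨a, b, e⟩ := hs.isCoprime
    refine ⟨z₁ * (b * G) + z₂ * (a * φ), hs.isCoprime.mul_dvd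
      ⟨y₁ - a * (z₂ - z₁) * (z₁ * (b * G) + z₂ * (a * φ) + z₁), ?_⟩
      ⟨y₂ - b * (z₁ - z₂) * (z₁ * (b * G) + z₂ * (a * φ) + z₂), ?_⟩⟩
    · linear_combination h1 - z₁ * (z₁ * (b * G) + z₂ * (a * φ) + z₁) * e
    · linear_combination h2 - z₂ * (z₁ * (b * G) + z₂ * (a * φ) + z₂) * e

theorem ev : INTStmt → NXPStmt → EVStmt := by
  intro intm nx p _ g f δ d π hz hn hd hw
  have hd1 : (d : ZMod p) ≠ 0 := fun c => hd ((ZMod.intCast_zmod_eq_zero_iff_dvd _ p).1 c)
  have hd2 : IsUnit (d : ℤ_[p]) := unit_of (by simpa using hd1)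
  obtain ⟨hδ, U, V, s, r, -, -, ⟨U', hU⟩, hUf, hr0, y, hy⟩ := hw
  obtain ⟨u, v, w, j, hF, H⟩ := intm p (C (d : ℤ_[p]) * zK f ℤ_[p]) U V U' (by
    rw [← hU, iq, Polynomial.map_mul, zK_map]
    simp)
  obtain ⟨a, ha⟩ := exists_coprime (f := zK f (ZMod p)) (u := rq p u) (v := rq p v) (w := rq p w)
    (fam_red hz Fact.out)
    (by
      have := congrArg (Polynomial.map PadicInt.toZMod) hF
      rw [Polynomial.map_mul, zK_map, Polynomial.map_sub, Polynomial.map_mul,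
        Polynomial.map_pow] at this
      exact this ▸ dvd_mul_left _ _)
    (fun φ hφ h1 h2 h3 => by
      classical
      obtain ⟨ψ, e1, e2, e3⟩ := lifts_and_natDegree_eq_and_monic
        ((mem_lifts (f := Int.castRingHom (ZMod p)) _).2 (lift p (normalize φ)))
        (monic_normalize hφ.ne_zero)
      obtain ⟨u₁, u₂, rfl⟩ := split (φ := ψ) (e1.symm ▸ normalize_dvd_iff.2 h1)
      obtain ⟨v₁, v₂, rfl⟩ := split (φ := ψ) (e1.symm ▸ normalize_dvd_iff.2 h2)
      obtain ⟨w₁, w₂, rfl⟩ := split (φ := ψ) (e1.symm ▸ normalize_dvd_iff.2 h3)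
      obtain ⟨d', hd'⟩ := hd2.exists_left_inv
      refine hn (nx.1 p f ψ (C d' * (v₁ ^ 2 - u₁ * w₁)) (C d' * (2 * v₁ * v₂ - u₁ * w₂ - u₂ * w₁))
        (C d' * (v₂ ^ 2 - u₂ * w₂)) e3 ?_ ?_)
      · rw [e2]
        exact ((normalize_associated φ).symm.irreducible hφ).natDegree_pos
      · calc _ = C d' * (C (d : ℤ_[p]) * zK f ℤ_[p]) := by rw [← mul_assoc, ← C_mul, hd', C_1, one_mul]
          _ = _ := by rw [hF]; ring)
  obtain ⟨a, rfl⟩ := lift p a
  obtain ⟨z, z', hW⟩ := H (zK a ℤ_[p]) 1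
  have hs : IsCoprime (s ^ 2) (C (d : ℚ_[p]) * zK f ℚ_[p]) := by
    rw [show s ^ 2 = δ * (C r * U) + C (d : ℚ_[p]) * zK f ℚ_[p] * (-y) by linear_combination -hy]
    exact (hδ.mul_left ((isCoprime_mul_unit_left_left (isUnit_C.2 hr0.isUnit) _ _).2
      hUf)).add_mul_left_left _
  obtain ⟨t, b, ht⟩ := (IsCoprime.pow_left_iff two_pos).1 hs
  have hp : (p : ℚ_[p]) ≠ 0 := Nat.cast_ne_zero.2 (Fact.out : p.Prime).ne_zero
  refine ⟨(U * z + V * z') * t, r * (p : ℚ_[p]) ^ j,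
    u * zK a ℤ_[p] ^ 2 + 2 * v * zK a ℤ_[p] * 1 + w * 1 ^ 2, mul_ne_zero hr0 (zpow_ne_zero _ hp),
    (dvd_mul_left _ (C (d : ℚ_[p]))).trans ?_, by simpa [zK_map] using ha⟩
  rw [hW, C_mul]
  generalize C ((p : ℚ_[p]) ^ j) = P
  generalize C (d : ℚ_[p]) * zK f ℚ_[p] = F at hU hy ht ⊢
  refine ⟨t ^ 2 * y * (P * (U * z ^ 2 + 2 * V * z * z' - U' * z' ^ 2)) +
    t ^ 2 * δ * C r * P * z' ^ 2 -
    P * (U * z ^ 2 + 2 * V * z * z' - U' * z' ^ 2) * b * (t * s + 1), ?_⟩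
  linear_combination -(t ^ 2 * δ * C r * P * z' ^ 2) * hU +
    t ^ 2 * (P * (U * z ^ 2 + 2 * V * z * z' - U' * z' ^ 2)) * hy +
    P * (U * z ^ 2 + 2 * V * z * z' - U' * z' ^ 2) * (t * s + 1) * ht

end Pool.Agent.MP_a43263_nt.VA

end
end MrgPart0

-- ======== part 1: formerly Pool.Agent.MP_a43263_nt.VA.Gram
section MrgPart1

/-! THEOREM V: Gram matrices and Hasse symbols in even rank. -/

set_option autoImplicit false

noncomputable section

namespace Pool.Agent.MP_a43263_nt.VA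

open Polynomial Finset Matrix JC VV
open UV (Nm Dg po ve dvd_sub_mod)

namespace Gram

variable {K : Type} [Field K] {g : ℕ} {f : K[X]}

theorem cnt (g : ℕ) : ∑ i : Fin (2 * g + 2), (Ioi i).card = (g + 1) * (2 * g + 1) := by
  simp only [Fin.card_Ioi]
  rw [Fin.sum_univ_eq_sum_range (fun i => 2 * g + 2 - 1 - i), sum_range_reflect (fun i => i)]
  have := sum_range_id_mul_two (2 * g + 2)
  rw [show 2 * g + 2 - 1 = 2 * g + 1 from rfl] at this
  nlinarith

theorem neg_pow (g : ℕ) : (-1 : K) ^ ((g + 1) * (2 * g + 1)) = (-1) ^ (g + 1) := by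
  rw [show (g + 1) * (2 * g + 1) = 2 * ((g + 1) * g) + (g + 1) by ring, pow_add, pow_mul]
  simp

theorem sgn (a : Fin (2 * g + 2) → K) :
    ∏ i, ∏ j ∈ univ.erase i, (a i - a j) = (-1) ^ (g + 1) * (vandermonde a).det ^ 2 := by
  have h1 := prod_prod_Ioi_mul_eq_prod_prod_off_diag fun i j : Fin (2 * g + 2) => a j - a i
  simp only [compl_singleton] at h1
  rw [← h1, det_vandermonde, ← neg_pow, ← cnt, ← prod_pow_eq_pow_sum, ← prod_pow,
    ← prod_mul_distrib]
  refine prod_congr rfl fun i _ => ?_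
  rw [← prod_const, ← prod_pow, ← prod_mul_distrib]
  exact prod_congr rfl fun j _ => by ring

theorem roots [IsAlgClosed K] (h : Mq g f) :
    ∃ a : Fin (2 * g + 2) → K, Function.Injective a ∧ f = ∏ i, (X - C (a i)) := by
  classical
  have hs : f.Splits := IsAlgClosed.splits f
  have hn : f.roots.Nodup := nodup_roots h.sep
  have hc : f.roots.toFinset.card = 2 * g + 2 := by
    rw [Multiset.toFinset_card_of_nodup hn, ← h.deg, hs.natDegree_eq_card_roots]
  let e := (Finset.equivFinOfCardEq hc).symm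
  refine ⟨fun i => (e i).1, Subtype.val_injective.comp e.injective, ?_⟩
  rw [e.prod_comp fun x => X - C x.1, Finset.prod_coe_sort _ fun x => X - C x,
    Finset.prod_eq_multiset_prod, Multiset.toFinset_val, hn.dedup]
  exact hs.eq_prod_roots_of_monic h.monic

theorem det_split {a : Fin (2 * g + 2) → K} (h : Mq g f) (hi : Function.Injective a)
    (hc : f = ∏ i, (X - C (a i))) (δ : K[X]) : (Gm g f δ).det = (-1) ^ (g + 1) * Nm f δ := by
  have h0 : ∀ i, f.eval (a i) = 0 := fun i => by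
    rw [hc, eval_prod]
    exact prod_eq_zero (mem_univ i) (by simp)
  have h1 : Gm g f δ = (vandermonde a)ᵀ *
      diagonal (fun k => δ.eval (a k) / ∏ j ∈ univ.erase k, (a k - a j)) * vandermonde a := by
    ext i j
    have e := Lagrange.coeff_eq_sum (s := univ) hi.injOn (P := (δ * X ^ (i.1 + j.1)) %ₘ f) (by
      refine (degree_modByMonic_lt _ h.monic).trans_eq ?_
      rw [card_univ, Fintype.card_fin, degree_eq_natDegree h.monic.ne_zero, h.deg])
    rw [card_univ, Fintype.card_fin, show 2 * g + 2 - 1 = 2 * g + 1 from rfl] at e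
    rw [Gm, of_apply, ta, e, mul_apply]
    refine sum_congr rfl fun k _ => ?_
    rw [mul_diagonal, transpose_apply, vandermonde_apply, vandermonde_apply,
      modByMonic_eq_sub_mul_div, eval_sub, eval_mul (p := f), h0 k, eval_mul, eval_pow, eval_X,
      pow_add]
    ring
  have h2 : Nm f δ = ∏ k, δ.eval (a k) := by
    rw [Nm, hc, resultant_prod_left _ _ _ _ (by simp) le_rfl]
    exact prod_congr rfl fun k _ => by
      rw [natDegree_X_sub_C, resultant_X_sub_C_left _ _ _ le_rfl]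
  have h3 : (vandermonde a).det ≠ 0 := det_vandermonde_ne_zero_iff.2 hi
  rw [h1, det_mul, det_mul, det_transpose, det_diagonal, prod_div_distrib, sgn, h2]
  rcases neg_one_pow_eq_or K (g + 1) with e | e <;> rw [e] <;> field_simp

theorem det (h : Mq g f) (δ : K[X]) : (Gm g f δ).det = (-1) ^ (g + 1) * Nm f δ := by
  let φ := algebraMap K (AlgebraicClosure K)
  obtain ⟨a, hi, hc⟩ := roots (h.map φ)
  have := det_split (h.map φ) hi hc (δ.map φ)
  rw [Gm_map h.monic, UV.Gram.nm_map h.monic] at this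
  apply φ.injective
  rw [φ.map_det, map_mul, map_pow, map_neg, map_one]
  exact this

/-- the matrix of the multiplication by `x` -/
def mm (g : ℕ) (f x : K[X]) : Mat g K := Matrix.of fun i j => ve (2 * g + 2) f (x * X ^ j.1) i

theorem mm_gm (h : Mq g f) (δ x : K[X]) :
    (mm g f x)ᵀ * Gm g f δ * mm g f x = Gm g f (δ * x ^ 2) := by
  ext i j
  have e := Gm_form (g := g) (f := f) δ (ve _ f (x * X ^ i.1)) (ve _ f (x * X ^ j.1))
  rw [UV.po_ve h.monic h.deg, UV.po_ve h.monic h.deg] at e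
  rw [Matrix.mul_assoc]
  refine e.trans (ta_congr h.monic ?_)
  have a := dvd_sub_mod (f := f) (x * X ^ i.1)
  have b := dvd_sub_mod (f := f) (x * X ^ j.1)
  rw [show δ * x ^ 2 * X ^ (i.1 + j.1) = δ * (x * X ^ i.1) * (x * X ^ j.1) by ring,
    show ∀ u v u' v' : K[X], δ * u' * v' - δ * u * v = -(δ * v') * (u - u') - δ * u * (v - v')
    from fun _ _ _ _ => by ring]
  exact dvd_sub (a.mul_left _) (b.mul_left _)

variable {s : K → K → ℤ}

theorem hs_cons (hs : Sy s) {n : ℕ} {e : Fin n → K} (he : ∀ i, e i ≠ 0) :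
    Hs s (Fin.cons 1 e : Fin (n + 1) → K) = Hs s e := by
  rw [Hs, Fin.prod_univ_succ, Fin.prod_Ioi_zero, Hs]
  simp only [Fin.prod_Ioi_succ, Fin.cons_zero, Fin.cons_succ]
  rw [prod_eq_one fun i _ => Qv.s_sq hs one_ne_zero (he i) IsSquare.one, one_mul]

theorem s_self (hs : Sy s) {r : K} (hr : r ≠ 0) : s r r = s r (-1) := by
  have h1 : s r (-r) = 1 := hs.con _ _ hr (neg_ne_zero.2 hr) ⟨1, 1, 0, by simp, by ring⟩
  have h2 := Hw.mul_r hs hr (neg_ne_zero.2 hr) (neg_ne_zero.2 (one_ne_zero (α := K)))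
  rwa [h1, one_mul, neg_mul_neg, mul_one] at h2

theorem pairs (e : Fin (2 * g + 2) → K) : ∏ i, ∏ j ∈ Ioi i, (-1 * (e i * e j)) =
    ((-1) ^ (g + 1) * ∏ i, e i) ^ (2 * g + 1) := by
  have h1 := prod_prod_Ioi_mul_eq_prod_prod_off_diag fun _ i : Fin (2 * g + 2) => e i
  simp only [prod_const, card_compl, Fintype.card_fin, card_singleton] at h1
  simp only [prod_mul_distrib (f := fun _ => (-1 : K)), prod_const]
  rw [prod_mul_distrib, h1, prod_pow_eq_pow_sum, cnt, prod_pow, mul_pow, ← pow_mul]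
  rfl

end Gram

open Gram in
theorem gram : GRAMStmt := by
  intro K _ g f h
  refine ⟨Gram.det h, fun δ δ' x hx hd => ⟨mm g f x, ?_, ?_⟩⟩
  · have e := congrArg Matrix.det (mm_gm h 1 x)
    have u : IsUnit (Gm g f (1 * x ^ 2)).det := by
      rw [Gram.det h]
      exact (isUnit_one.neg.pow _).mul (((UV.gram.1 K f h.monic).2.2.2.1 _).2
        (isCoprime_one_left.mul_left hx.pow_left))
    rw [← e, det_mul] at u
    exact isUnit_of_mul_isUnit_right u
  · rw [mm_gm h, Gm_congr h.monic hd]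

open Gram in
theorem hev : HEVStmt := by
  intro K _ _ s hs g
  refine ⟨fun G e h he ⟨S, s1, s2⟩ ⟨r, hr⟩ => ?_, fun e r hr he ⟨t, ht⟩ => ?_⟩
  · obtain ⟨l, hl⟩ := UV.Diag.val h
    obtain ⟨u, -, u2⟩ := h.det
    let φ : (Fin (2 * g + 2) → K) →ₗ[K] Fin (2 * g + 2 + 1) → K :=
      LinearMap.pi (Fin.cons 0 fun i => (LinearMap.proj i).comp l.toLinearMap)
    have hφ : Function.Injective φ := (injective_iff_map_eq_zero φ).2 fun v hv =>
      l.map_eq_zero_iff.1 (funext fun j => by simpa [φ] using congrFun hv j.succ)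
    rw [← hs_cons hs he]
    refine (UV.hinv K s hs).2 (g + 1) (diagonal (Fin.cons 1 e : Fin (2 * g + 2 + 1) → K)) _
      (UV.Dg.diag _) (Fin.cases one_ne_zero he) ⟨S.map φ, ?_, ?_⟩ ⟨u * r, ?_⟩
    · exact s1.trans_eq (S.equivMapOfInjective φ hφ).finrank_eq
    · rintro _ ⟨v, hv, rfl⟩
      refine Eq.trans ?_ ((hl v).trans (s2 v hv))
      show ∑ i : Fin (2 * g + 2 + 1), φ v i *
        (diagonal (Fin.cons 1 e : Fin (2 * g + 2 + 1) → K) *ᵥ φ v) i = _
      rw [Fin.sum_univ_succ]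
      simp [φ, mulVec_diagonal, sq, mul_left_comm]
    · have : (diagonal (Fin.cons 1 e : Fin (2 * g + 2 + 1) → K)).det = ∏ i, e i := by
        rw [det_diagonal, Fin.prod_univ_succ]
        simp
      refine (congrArg _ this).trans ?_
      rw [u2]
      linear_combination u ^ 2 * hr
  · have n1 : (-1 : K) ≠ 0 := neg_ne_zero.2 one_ne_zero
    have h0 : ∀ i j, -1 * (e i * e j) ≠ 0 := fun i j => mul_ne_zero n1 (mul_ne_zero (he i) (he j))
    have h1 : ∀ i j, s (r * e i) (r * e j) = s (e i) (e j) * s r (-1 * (e i * e j)) := by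
      intro i j
      rw [hs.mul _ _ _ hr (he i) (mul_ne_zero hr (he j)), Hw.mul_r hs hr hr (he j),
        Hw.mul_r hs (he i) hr (he j), Hw.mul_r hs hr n1 (mul_ne_zero (he i) (he j)),
        Hw.mul_r hs hr (he i) (he j), s_self hs hr, hs.comm (e i) r]
      ring
    have h2 : ∏ i, ∏ j ∈ Ioi i, s r (-1 * (e i * e j)) = 1 := by
      rw [prod_congr rfl fun i _ => (Hw.prod_r hs hr (Ioi i) fun j _ => h0 i j).symm,
        ← Hw.prod_r hs hr univ fun i _ => prod_ne_zero_iff.2 fun j _ => h0 i j, pairs, hs.comm]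
      exact Qv.s_sq hs (pow_ne_zero _ (mul_ne_zero (pow_ne_zero _ n1)
        (prod_ne_zero_iff.2 fun i _ => he i))) hr ⟨t ^ (2 * g + 1), by rw [ht, mul_pow]⟩
    simp only [Hs, h1, prod_mul_distrib]
    rw [h2, mul_one]

theorem hmv : GRAMStmt → HEVStmt → HMVStmt := by
  intro hG hE K _ _ s hs g m δ x w r e e' hm hr ⟨t, ht⟩ hd h h' he'
  obtain ⟨n1, n2, n3, n4, -⟩ := UV.gram.1 K m hm.monic
  obtain ⟨g1, g2⟩ := hG K g m hm
  obtain ⟨u, u1, u2⟩ := h.det
  obtain ⟨u', u1', u2'⟩ := h'.det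
  have p1 : ∏ i, e' i ≠ 0 := prod_ne_zero_iff.2 fun i _ => he' i
  have hw : Nm m w = Nm m δ * (Nm m x * Nm m x) * r ^ (2 * g + 2) := by
    rw [← n2 _ _ hd, n1, n1, n3, sq, n1, hm.deg]
  have sg : (-1 : K) ^ (g + 1) * (-1) ^ (g + 1) = 1 := by
    rw [← mul_pow]
    simp
  have w0 : Nm m w ≠ 0 := fun h0 => p1 (by rw [u2', g1, h0, mul_zero, mul_zero])
  rw [hw] at w0
  have d0 : Nm m δ ≠ 0 := left_ne_zero_of_mul (left_ne_zero_of_mul w0)
  have x0 : Nm m x ≠ 0 := left_ne_zero_of_mul (right_ne_zero_of_mul (left_ne_zero_of_mul w0))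
  have he : ∀ i, e i ≠ 0 := fun i => prod_ne_zero_iff.1 (by
    rw [u2, g1]
    exact mul_ne_zero (pow_ne_zero 2 u1.ne_zero)
      (mul_ne_zero (pow_ne_zero _ (neg_ne_zero.2 one_ne_zero)) d0)) i (mem_univ i)
  obtain ⟨P, q1, q2⟩ := g2 (C r * δ) w x ((n4 x).1 x0.isUnit) (by
    rwa [show C r * δ * x ^ 2 = δ * x ^ 2 * C r by ring])
  have k1 : Dg (r • Gm g m δ) e' := UV.Dg.of_congr q1 (by rwa [← Gm_C_mul, q2])
  refine ⟨?_, ⟨u' * t * Nm m x * r ^ (g + 1), ?_⟩⟩
  · rw [← (UV.hinv K s hs).1 _ _ _ _ (dg_smul h r) k1 fun i => mul_ne_zero hr (he i)]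
    refine ((hE K s hs g).2 e r hr he ⟨u * t, ?_⟩).symm
    rw [u2, g1, ht]
    linear_combination (u ^ 2 * t * t) * sg
  · rw [u2', g1, hw, ht]
    linear_combination (u' ^ 2 * t * t * Nm m x * Nm m x * r ^ (2 * g + 2)) * sg

end Pool.Agent.MP_a43263_nt.VA

end
end MrgPart1

-- ======== part 2: formerly Pool.Agent.MP_a43263_nt.VA.Locq
section MrgPart2

/-! THEOREM V: the Hasse symbol of the local forms. -/

set_option autoImplicit false

noncomputable section

namespace Pool.Agent.MP_a43263_nt.VA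

open Polynomial Finset Matrix JC VV
open UV (zK iq rq Nm Dg Sp po ve zK_map dvd_sub_mod DIAGStmt PADStmt)
open UV.Locq (conj_apply Hs_cons Hs_mul unit_iff two_unit coe_ne)

namespace Locq

section ring
variable {R S : Type} [CommRing R] [CommRing S] {g : ℕ} {f : R[X]}

/-- the Gram matrix on polynomials of degree less than `n` -/
def Gn (n g : ℕ) (f ν : R[X]) : Matrix (Fin n) (Fin n) R :=
  Matrix.of fun i j => ta g f (ν * X ^ (i.1 + j.1))

theorem Gn_symm (n : ℕ) (ν : R[X]) : (Gn n g f ν).IsSymm := by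
  ext i j
  simp [Gn, add_comm]

theorem Gn_map (hf : f.Monic) (φ : R →+* S) (n : ℕ) (ν : R[X]) :
    Gn n g (f.map φ) (ν.map φ) = (Gn n g f ν).map φ := by
  ext i j
  simp only [Gn, of_apply, map_apply, ← ta_map hf φ, Polynomial.map_mul, Polynomial.map_pow, map_X]

theorem Gn_form {n : ℕ} (ν : R[X]) (x y : Fin n → R) :
    x ⬝ᵥ Gn n g f ν *ᵥ y = ta g f (ν * po x * po y) := by
  simp only [po, mul_sum, sum_mul, ta_sum, dotProduct, mulVec, Gn, of_apply]
  rw [sum_comm]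
  refine sum_congr rfl fun j _ => sum_congr rfl fun i _ => ?_
  rw [show ν * (C (x i) * X ^ i.1) * (C (y j) * X ^ j.1) =
    C (x i * y j) * (ν * X ^ (i.1 + j.1)) by rw [C_mul, pow_add]; ring, ta_C_mul]
  ring

/-- the value on a cofactor of a linear factor -/
theorem ta_lin [Nontrivial R] {a : R} {k : R[X]} (hk : k.Monic) (hd : k.natDegree = 2 * g + 1)
    (hf : f = (X - C a) * k) (W : R[X]) : ta g f (W * k * k) = (W * k).eval a := by
  have hm : f.Monic := hf ▸ (monic_X_sub_C a).mul hk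
  rw [ta_congr hm (Q := C ((W * k).eval a) * k), ta_C_mul, ta_of_lt hm, ← hd, hk.coeff_natDegree,
    mul_one]
  · rw [degree_eq_natDegree hm.ne_zero, degree_eq_natDegree hk.ne_zero, hf,
      (monic_X_sub_C a).natDegree_mul hk, natDegree_X_sub_C]
    exact_mod_cast by omega
  · rw [← sub_mul, hf]
    exact mul_dvd_mul_right X_sub_C_dvd_sub_C_eval _

end ring

/-- the form is nondegenerate -/
theorem det_ne {F : Type} [Field F] {g n : ℕ} {q h r : F[X]} (hq : q.Monic) (hm : h.Monic)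
    (hd : h.natDegree = n) (hn : q.natDegree + n = 2 * g + 2) (hr : IsCoprime r h) :
    (Gn n g (q * h) (r * q)).det ≠ 0 := by
  classical
  intro e
  obtain ⟨v, v0, hv⟩ := Matrix.exists_mulVec_eq_zero_iff.2 e
  have c0 : po v ≠ 0 := fun c => v0 (UV.po_inj hm hd (c ▸ dvd_zero h))
  have c1 : (po v).natDegree < n := (natDegree_lt_iff_degree_lt c0).2 (UV.po_degree v)
  obtain ⟨k, hk⟩ := Nat.exists_eq_add_of_lt c1
  obtain ⟨u, w, c3⟩ := hr
  have hf := hq.mul hm
  have c2 : (q * X ^ k * po v).natDegree = 2 * g + 1 := by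
    rw [(hq.mul (monic_X_pow k)).natDegree_mul' c0, hq.natDegree_mul (monic_X_pow k),
      natDegree_X_pow]
    omega
  have h1 := Gn_form (g := g) (f := q * h) (r * q) (ve n h (u * X ^ k)) v
  rw [hv, dotProduct_zero, UV.po_ve hm hd, ta_congr hf (Q := q * X ^ k * po v), ta_of_lt hf,
    ← c2, coeff_natDegree] at h1
  · exact mul_ne_zero (hq.mul (monic_X_pow k)).ne_zero c0 (leadingCoeff_eq_zero.1 h1.symm)
  · refine degree_lt_degree ?_
    rw [c2, hq.natDegree_mul hm]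
    omega
  · obtain ⟨z, hz⟩ := dvd_sub_mod (f := h) (u * X ^ k)
    exact ⟨-(r * po v * z) - w * X ^ k * po v, by
      linear_combination (q * X ^ k * po v) * c3 - (r * q * po v) * hz⟩

variable {p : ℕ} [Fact p.Prime]

theorem Gm_iq {g : ℕ} {m : ℤ_[p][X]} (hm : m.Monic) (r : ℤ_[p][X]) :
    Gm g (iq p m) (iq p r) = (Gm g m r).map PadicInt.Coe.ringHom := Gm_map hm _ _

theorem red {g : ℕ} {f : ℤ[X]} {c a b : ℤ_[p]} {h : ℤ_[p][X]} (hd : Hd p g f c a b h) :
    zK f (ZMod p) = (X ^ 2 - X) * (C (PadicInt.toZMod c) * rq p h) := by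
  rw [← UV.rq_zK, hd.eq]
  simp only [rq, Polynomial.map_mul, Polynomial.map_sub, map_X, map_C, hd.zero, hd.one, C_0, C_1]
  ring

theorem pv_eq {g : ℕ} {f : ℤ[X]} {c a b : ℤ_[p]} {h : ℤ_[p][X]} (hd : Hd p g f c a b h) :
    ∃ κ : ℤ_[p][X], zK (pv p f) ℤ_[p] = (C c * h + C (p : ℤ_[p]) * κ) ^ 2 + C (p : ℤ_[p]) := by
  have m : (X ^ 2 - X : ℤ[X]).Monic := by monicity!
  have e : rq p (zK (f /ₘ (X ^ 2 - X)) ℤ_[p] - C c * h) = 0 := by
    have m' : (X ^ 2 - X : (ZMod p)[X]).Monic := by simpa using m.map (Int.castRingHom (ZMod p))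
    have := map_divByMonic (p := f) (Int.castRingHom (ZMod p)) m
    rw [Polynomial.map_sub, Polynomial.map_pow, map_X] at this
    rw [rq, Polynomial.map_sub, zK_map, zK, this, Polynomial.map_mul, map_C, sub_eq_zero]
    exact (congrArg (· /ₘ (X ^ 2 - X)) (red hd)).trans (mul_divByMonic_cancel_left _ m')
  obtain ⟨κ, hκ⟩ : C (p : ℤ_[p]) ∣ zK (f /ₘ (X ^ 2 - X)) ℤ_[p] - C c * h := by
    refine (C_dvd_iff_dvd_coeff _ _).2 fun i => ?_
    rw [← Ideal.mem_span_singleton, ← PadicInt.maximalIdeal_eq_span_p, ← PadicInt.ker_toZMod,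
      RingHom.mem_ker, ← coeff_map]
    exact congrArg (fun P => P.coeff i) e
  refine ⟨κ, ?_⟩
  rw [← hκ, add_sub_cancel]
  simp [pv, zK]

/-- the shape of the form at a prime of `Q` -/
theorem shape (diag : DIAGStmt) (hp : p ≠ 2) {g : ℕ} {f : ℤ[X]} {c a b : ℤ_[p]}
    {h w : ℤ_[p][X]} (hd : Hd p g f c a b h) (hr : IsCoprime (rq p w) (zK f (ZMod p))) :
    ∃ (α β : ℤ_[p]) (e : Fin (2 * g) → ℤ_[p]) (P : Mat g ℤ_[p]),
      PadicInt.toZMod (α * β) = -((rq p w).eval 0 * (rq p w).eval 1 * PadicInt.toZMod c ^ 4 *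
        ((rq p h).eval 0 * (rq p h).eval 1) ^ 3) ∧ (∀ i, IsUnit (e i)) ∧
      Pᵀ * Gm g ((X - C a) * (X - C b) * h) (w * zK (pv p f) ℤ_[p]) * P =
        diagonal (Fin.cons α (Fin.cons β fun i => p * e i)) := by
  have hq := (monic_X_sub_C a).mul (monic_X_sub_C b)
  have hm := hq.mul hd.monic
  have dk : ∀ t : ℤ_[p], ((X - C t) * h).natDegree = 2 * g + 1 := fun t => by
    rw [(monic_X_sub_C t).natDegree_mul hd.monic, natDegree_X_sub_C, hd.deg, add_comm]
  have hdg : ((X - C a) * (X - C b) * h).natDegree = 2 * g + 2 := by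
    rw [mul_assoc, (monic_X_sub_C a).natDegree_mul ((monic_X_sub_C b).mul hd.monic),
      natDegree_X_sub_C, dk, add_comm]
  obtain ⟨κ, e2⟩ := pv_eq hd
  have p0 : PadicInt.toZMod (p : ℤ_[p]) = 0 := by simp
  have hM : IsUnit (Gn (2 * g) g ((X - C a) * (X - C b) * h)
      (w * (1 + C (p : ℤ_[p]) * κ ^ 2) * ((X - C a) * (X - C b)) *
        ((X - C a) * (X - C b)))).det := by
    have c2 : ∀ t : ZMod p, (rq p h).eval t ≠ 0 → IsCoprime (X - C t) (rq p h) := fun t ht =>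
      ((irreducible_X_sub_C t).coprime_iff_not_dvd).2 fun c => ht (dvd_iff_isRoot.1 c)
    rw [unit_iff, RingHom.map_det, RingHom.mapMatrix_apply, ← Gn_map hm]
    have := det_ne (g := g) ((monic_X_sub_C 0).mul (monic_X_sub_C 1))
      (hd.monic.map PadicInt.toZMod) (hd.monic.natDegree_map _ |>.trans hd.deg) (by
        rw [(monic_X_sub_C _).natDegree_mul (monic_X_sub_C _), natDegree_X_sub_C,
          natDegree_X_sub_C]; omega)
      (((red hd ▸ hr).of_mul_right_right.of_mul_right_right).mul_left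
        ((c2 0 (left_ne_zero_of_mul hd.ne)).mul_left (c2 1 (right_ne_zero_of_mul hd.ne))))
    simpa only [Polynomial.map_mul, Polynomial.map_sub, Polynomial.map_add, map_X, map_C, hd.zero,
      hd.one, p0, C_0, zero_mul, add_zero, Polynomial.map_one, mul_one] using this
  obtain ⟨e, ⟨P1, -, hP1⟩, he⟩ := diag _ (two_unit hp) _ _ (Gn_symm _ _) hM
  obtain ⟨P, hP⟩ := gram_ve hm hdg (w * zK (pv p f) ℤ_[p])
    (Fin.cons ((X - C b) * h) (Fin.cons ((X - C a) * h)
      fun i => (X - C a) * (X - C b) * po fun k => P1 k i))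
  refine ⟨(w * zK (pv p f) ℤ_[p] * ((X - C b) * h)).eval a,
    (w * zK (pv p f) ℤ_[p] * ((X - C a) * h)).eval b, e, P, ?_, he, ?_⟩
  · rw [map_mul, ← eval₂_at_apply, ← eval_map, ← eval₂_at_apply, ← eval_map, hd.zero, hd.one, e2]
    simp [hd.zero, hd.one]
    ring
  · set W := w * zK (pv p f) ℤ_[p] with hW
    ext i j
    rw [hP]
    refine Fin.cases ?_ (Fin.cases ?_ fun i => ?_) i <;>
      refine Fin.cases ?_ (Fin.cases ?_ fun j => ?_) j <;> simp only [Fin.cons_zero, Fin.cons_succ]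
    · rw [diagonal_apply_eq, Fin.cons_zero]
      exact ta_lin ((monic_X_sub_C b).mul hd.monic) (dk b) (mul_assoc _ _ _) W
    · rw [diagonal_apply_ne _ (Fin.succ_ne_zero _).symm]
      exact ta_dvd hm ⟨W * h, by ring⟩
    · rw [diagonal_apply_ne _ (Fin.succ_ne_zero _).symm]
      exact ta_dvd hm ⟨W * (X - C b) * po fun k => P1 k j, by ring⟩
    · rw [diagonal_apply_ne _ (Fin.succ_ne_zero _)]
      exact ta_dvd hm ⟨W * h, by ring⟩
    · rw [diagonal_apply_eq, Fin.cons_succ, Fin.cons_zero]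
      exact ta_lin ((monic_X_sub_C a).mul hd.monic) (dk a) (by ring) W
    · rw [diagonal_apply_ne _ fun d => (Fin.succ_ne_zero j).symm (Fin.succ_injective _ d)]
      exact ta_dvd hm ⟨W * (X - C a) * po fun k => P1 k j, by ring⟩
    · rw [diagonal_apply_ne _ (Fin.succ_ne_zero _)]
      exact ta_dvd hm ⟨W * (X - C b) * po fun k => P1 k i, by ring⟩
    · rw [diagonal_apply_ne _ fun d => Fin.succ_ne_zero i (Fin.succ_injective _ d)]
      exact ta_dvd hm ⟨W * (X - C a) * po fun k => P1 k i, by ring⟩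
    · have h1 := congrFun (congrFun hP1 i) j
      rw [conj_apply, Gn_form] at h1
      rw [ta_congr hm (Q := C (p : ℤ_[p]) * (w * (1 + C (p : ℤ_[p]) * κ ^ 2) *
        ((X - C a) * (X - C b)) * ((X - C a) * (X - C b)) * (po fun k => P1 k i) *
          po fun k => P1 k j)), ta_C_mul, h1]
      · by_cases d : i = j
        · rw [d, diagonal_apply_eq, diagonal_apply_eq, Fin.cons_succ, Fin.cons_succ]
        · rw [diagonal_apply_ne _ d, diagonal_apply_ne _
            (fun d' => d (Fin.succ_injective _ (Fin.succ_injective _ d'))), mul_zero]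
      · refine ⟨w * ((X - C a) * (X - C b)) * (C c ^ 2 * h + 2 * C c * C (p : ℤ_[p]) * κ) *
          (po fun k => P1 k i) * po fun k => P1 k j, ?_⟩
        rw [hW, e2]
        ring

/-- the Hasse symbol of the shape -/
theorem sym (pad : PADStmt) (hp4 : p % 4 = 1) {s : ℚ_[p] → ℚ_[p] → ℤ} (hs : Sp p s) {g : ℕ}
    {α β : ℤ_[p]} {e : Fin (2 * g) → ℤ_[p]} (ha : IsUnit α) (hb : IsUnit β)
    (he : ∀ i, IsUnit (e i)) {E : Fin (2 * g + 2) → ℚ_[p]}
    (hE : E = Fin.cons (α : ℚ_[p]) (Fin.cons (β : ℚ_[p]) fun i => p * (e i : ℚ_[p])))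
    (hsq : IsSquare ((-1) ^ (g + 1) * ∏ i, E i)) : Hs s E = s p (α * β : ℤ_[p]) := by
  have hp : p ≠ 2 := by rintro rfl; simp at hp4
  have p0 : (p : ℚ_[p]) ≠ 0 := Nat.cast_ne_zero.2 (Fact.out : p.Prime).ne_zero
  have e0 : ∀ i, (e i : ℚ_[p]) ≠ 0 := fun i => coe_ne (he i)
  have w0 := coe_ne (ha.mul hb)
  obtain ⟨pd1, pd2⟩ := pad.1 p hp
  obtain ⟨pu, pp⟩ := pd2 s hs
  have S := hs.1
  obtain ⟨j, hj⟩ : IsSquare (-1 : ℚ_[p]) := by
    have := (pd1 (-1) isUnit_one.neg).2 (by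
      simpa using ZMod.exists_sq_eq_neg_one_iff.2 (by omega))
    simpa using this
  have mr : ∀ x y y' : ℚ_[p], x ≠ 0 → y ≠ 0 → y' ≠ 0 → s x (y * y') = s x y * s x y' :=
    fun x y y' a b c => by rw [S.comm, S.mul _ _ _ b c a, S.comm y, S.comm y']
  have sq1 : ∀ x y : ℚ_[p], x ≠ 0 → y ≠ 0 → s x y * s x y = 1 := fun x y a b => by
    rcases S.pm x y a b with c | c <;> simp [c]
  have spp : s p p = 1 := S.con _ _ p0 p0 ⟨1, j, 0, by simp, by linear_combination (-p : ℚ_[p]) * hj⟩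
  have spr : ∀ T : Finset (Fin (2 * g)), s p (∏ i ∈ T, (e i : ℚ_[p])) = ∏ i ∈ T, s p (e i) := by
    intro T
    induction T using Finset.induction_on with
    | empty => simpa using (pp 1 isUnit_one).2 (by simp)
    | insert i T hi ih =>
      rw [prod_insert hi, prod_insert hi, mr _ _ _ p0 (e0 i) (prod_ne_zero_iff.2 fun i _ => e0 i),
        ih]
  have pr0 : ∏ i, (e i : ℚ_[p]) ≠ 0 := prod_ne_zero_iff.2 fun i _ => e0 i
  have t1 : ∀ w : ℤ_[p], IsUnit w → ∏ i, s w (p * (e i : ℚ_[p])) = 1 := fun w hw => by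
    rw [prod_congr rfl fun i _ => show s w (p * (e i : ℚ_[p])) = s w p by
      rw [mr _ _ _ (coe_ne hw) p0 (e0 i), pu _ _ hw (he i), mul_one], prod_const, card_univ,
      Fintype.card_fin, pow_mul, sq, sq1 _ _ (coe_ne hw) p0, one_pow]
  have t2 : Hs s (fun i => p * (e i : ℚ_[p])) = Hs (· * ·) fun i => s p (e i) :=
    prod_congr rfl fun i _ => prod_congr rfl fun k _ => by
      rw [S.mul _ _ _ p0 (e0 i) (mul_ne_zero p0 (e0 k)), mr _ _ _ p0 p0 (e0 k),
        mr _ _ _ (e0 i) p0 (e0 k), spp, pu _ _ (he i) (he k), S.comm (e i)]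
      ring
  have t3 := Hs_mul _ fun i => s p (e i)
  rw [← spr, ← t2, pow_mul, sq, sq1 _ _ p0 pr0, one_pow] at t3
  obtain ⟨n, hc⟩ := hsq
  rw [hE, Fin.prod_univ_succ, Fin.prod_univ_succ] at hc
  simp only [Fin.cons_zero, Fin.cons_succ, prod_mul_distrib, prod_const, card_univ,
    Fintype.card_fin] at hc
  have j0 : j ≠ 0 := fun c => by simp [c] at hj
  have t4 : ((α * β : ℤ_[p]) : ℚ_[p]) * ∏ i, (e i : ℚ_[p]) =
      n / (j ^ (g + 1) * p ^ g) * (n / (j ^ (g + 1) * p ^ g)) := by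
    rw [hj, mul_pow, pow_mul', sq] at hc
    rw [PadicInt.coe_mul]
    field_simp
    linear_combination hc
  have t5 : s p (α * β : ℤ_[p]) * s p (∏ i, (e i : ℚ_[p])) = 1 := by
    have z0 : n / (j ^ (g + 1) * p ^ g) ≠ 0 := left_ne_zero_of_mul (t4 ▸ mul_ne_zero w0 pr0)
    rw [← mr _ _ _ p0 w0 pr0, t4, mr _ _ _ p0 z0 z0, sq1 _ _ p0 z0]
  rw [hE, Hs_cons, Hs_cons, Fin.prod_univ_succ]
  simp only [Fin.cons_zero, Fin.cons_succ]
  rw [t1 _ ha, t1 _ hb, pu _ _ ha hb]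
  linear_combination s p (α * β : ℤ_[p]) * t3 - Hs s (fun i => p * (e i : ℚ_[p])) * t5

end Locq

open Locq

theorem locu : GRAMStmt → DIAGStmt → HMVStmt → PADStmt → LOCUStmt := by
  rintro - diag hmv pad p _ g f δ s e hp hc hf hs hsq he ⟨x, r, w, r0, h1, h2⟩
  obtain ⟨m, u, hm, hd, -, e1, e2⟩ := exists_monic hf hc
  have hq := fam_sq hf ℚ_[p]
  have hU : IsUnit (Gm g m w).det := by
    rw [← UV.rq_zK, e1, rq, rq, Polynomial.map_mul] at h2
    have := det_ne (g := g) monic_one (hm.map PadicInt.toZMod)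
      ((hm.natDegree_map _).trans hd) (by simp) h2.of_mul_right_right
    rw [one_mul, mul_one] at this
    rw [unit_iff, RingHom.map_det, RingHom.mapMatrix_apply, ← Gm_map hm]
    exact this
  obtain ⟨e0, h3, h4⟩ := diag _ (two_unit hp) _ _ (Gm_symm w) hU
  rw [(hmv _ s hs.1 g _ δ x _ r e _ (sq_mq hq) r0 hsq ((mo_dvd (sq_ne hq)).2 h1) he
    (by rw [← e2, Gm_iq hm]; exact h3.map PadicInt.Coe.ringHom) fun i => coe_ne (h4 i)).1]
  exact prod_eq_one fun i _ => prod_eq_one fun j _ =>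
    ((pad.1 p hp).2 s hs).1 _ _ (h4 i) (h4 j)

theorem locq : GRAMStmt → DIAGStmt → HMVStmt → PADStmt → HENSStmt → LOCQStmt := by
  rintro - diag hmv pad hens p _ g f δ s e u hp4 hf ht hs hsq he ⟨x, r, w, r0, h1, h2, h3⟩
  have hp : p ≠ 2 := by rintro rfl; simp at hp4
  obtain ⟨c, a, b, h, hd⟩ := hens.1 p g f hf ht
  obtain ⟨α, β, e1, P, w1, w2, w3⟩ := shape diag hp hd h2
  have hq := fam_sq hf ℚ_[p]
  have hm := ((monic_X_sub_C a).mul (monic_X_sub_C b)).mul hd.monic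
  have e2 : iq p ((X - C a) * (X - C b) * h) = mo (zK f ℚ_[p]) := by
    rw [← UV.iq_zK, hd.eq]
    conv_rhs => rw [iq, Polynomial.map_mul, map_C]
    exact ((mo_C_mul (coe_ne hd.unit) _).trans (mo_of_monic (hm.map _))).symm
  have r1 : ∀ t : ZMod p, t ^ 2 - t = 0 → (rq p w).eval t ≠ 0 := fun t ht d => by
    obtain ⟨y, z, hy⟩ := h2
    simpa [d, red hd, ht] using congrArg (eval t) hy
  have c0 := unit_iff.1 hd.unit
  have hw : IsUnit (α * β) := by
    rw [unit_iff, w1]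
    exact neg_ne_zero.2 (mul_ne_zero (mul_ne_zero (mul_ne_zero (r1 0 (by simp)) (r1 1 (by simp)))
      (pow_ne_zero _ c0)) (pow_ne_zero _ hd.ne))
  have ha := isUnit_of_mul_isUnit_left hw
  have hb := isUnit_of_mul_isUnit_right hw
  have p0 : (p : ℚ_[p]) ≠ 0 := Nat.cast_ne_zero.2 (Fact.out : p.Prime).ne_zero
  have h1' : zK f ℚ_[p] ∣ δ * x ^ 2 * C r - iq p (w * zK (pv p f) ℤ_[p]) := by
    rw [iq, Polynomial.map_mul, zK_map]
    simpa [ZMod.val_one] using h1
  obtain ⟨E, hE⟩ : ∃ E : Fin (2 * g + 2) → ℚ_[p],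
    E = Fin.cons (α : ℚ_[p]) (Fin.cons (β : ℚ_[p]) fun i => p * (e1 i : ℚ_[p])) := ⟨_, rfl⟩
  have E0 : ∀ i, E i ≠ 0 := fun i => hE ▸ Fin.cases (coe_ne ha)
    (Fin.cases (coe_ne hb) fun i => mul_ne_zero p0 (coe_ne (w2 i))) i
  have w4 : (P.map PadicInt.Coe.ringHom)ᵀ *
      Gm g (mo (zK f ℚ_[p])) (iq p (w * zK (pv p f) ℤ_[p])) *
      P.map PadicInt.Coe.ringHom = diagonal E := by
    rw [← e2, Gm_iq hm, ← transpose_map, ← Matrix.map_mul, ← Matrix.map_mul, w3,
      diagonal_map (map_zero _), hE]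
    refine congrArg diagonal (_root_.funext fun i => ?_)
    refine Fin.cases rfl (Fin.cases rfl fun i => ?_) i
    simp only [Fin.cons_succ, map_mul, map_natCast]
    rfl
  have w5 := congrArg det w4
  rw [det_mul, det_mul, det_transpose, det_diagonal] at w5
  have w6 : ∏ i, E i ≠ 0 := prod_ne_zero_iff.2 fun i _ => E0 i
  rw [← w5] at w6
  obtain ⟨h5, h6⟩ := hmv _ s hs.1 g _ δ x _ r e E (sq_mq hq) r0 hsq ((mo_dvd (sq_ne hq)).2 h1') he
    ⟨_, IsUnit.mk0 _ (right_ne_zero_of_mul w6), w4⟩ E0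
  rw [h5, sym pad hp4 hs ha hb w2 hE h6, ((pad.1 p hp).2 s hs).2 _ hw, ← h3, w1]
  obtain ⟨y, hy⟩ := hd.sq
  have y0 : y ≠ 0 := fun d => hd.ne (by rw [hy, d, mul_zero])
  obtain ⟨j, hj⟩ : IsSquare (-1 : ZMod p) := ZMod.exists_sq_eq_neg_one_iff.2 (by omega)
  rw [hy]
  generalize PadicInt.toZMod c = c' at c0
  generalize (rq p w).eval 0 * (rq p w).eval 1 = t
  constructor
  · rintro ⟨z, hz⟩
    refine ⟨j * z / (c' ^ 2 * y ^ 3), ?_⟩
    field_simp
    linear_combination -hz + z * z * hj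
  · rintro ⟨z, hz⟩
    exact ⟨j * z * (c' ^ 2 * y ^ 3), by
      rw [hz]; linear_combination (z * (c' ^ 2 * y ^ 3)) ^ 2 * hj⟩

end Pool.Agent.MP_a43263_nt.VA

end
end MrgPart2

-- ======== part 3: formerly Pool.Agent.MP_a43263_nt.VA.Wg
section MrgPart3

/-! THEOREM V: the image of the descent map is a group of classes of square norm, and the
quadric attached to a class is split. -/

set_option autoImplicit false

namespace Pool.Agent.MP_a43263_nt.VA

open Polynomial Matrix VV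
open UV (Nm po po_ve dvd_sub_mod)

namespace Wg

variable {K : Type} [Field K] {f δ : K[X]} {π : ZMod 2}

theorem unit {c : K} (hc : c ≠ 0) : IsUnit (C c) := isUnit_C.2 hc.isUnit

theorem scale {r : K} (hr : r ≠ 0) (h : Wv f δ π) : Wv (C (r ^ 2) * f) δ π := by
  obtain ⟨h0, U, V, s, t, h1, hd, h2, h3, ht, h4⟩ := h
  have u := unit (pow_ne_zero 2 hr)
  refine ⟨(isCoprime_mul_unit_left_right u _ _).2 h0, U, C r * V, s, t, h1, hd, ?_,
    (isCoprime_mul_unit_left_right u _ _).2 h3, ht, u.mul_left_dvd.2 h4⟩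
  rw [show C (r ^ 2) * f - (C r * V) ^ 2 = C r ^ 2 * (f - V ^ 2) by rw [C_pow]; ring]
  exact h2.mul_left _

theorem quo {g k : ℕ} {U V p b : K[X]} (hf : f.natDegree = 2 * g + 2) (hU : U.Monic)
    (hk : U.natDegree = k + k) (h : U ∣ f - V ^ 2) (hp : p.degree < (g + k + 1 : ℕ))
    (hb : b.degree < (k : ℕ)) (e : U ∣ p - b * V) :
    ∃ q : K[X], q.natDegree < 2 * g + 1 ∧ p ^ 2 - f * b ^ 2 = U * q := by
  obtain ⟨q, hq⟩ : U ∣ p ^ 2 - f * b ^ 2 := by
    rw [show p ^ 2 - f * b ^ 2 = (p - b * V) * (p + b * V) - (f - V ^ 2) * b ^ 2 by ring]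
    exact (e.mul_right _).sub (h.mul_right _)
  refine ⟨q, ?_, hq⟩
  rcases eq_or_ne q 0 with rfl | q0
  · rw [natDegree_zero]
    omega
  have e1 : p.natDegree < g + k + 1 := by
    rcases eq_or_ne p 0 with rfl | p0
    · rw [natDegree_zero]
      omega
    · exact (natDegree_lt_iff_degree_lt p0).2 hp
  have e2 : (f * b ^ 2).natDegree < k + k + 2 * g + 1 := by
    rcases eq_or_ne b 0 with rfl | b0
    · simp only [ne_eq, OfNat.ofNat_ne_zero, not_false_eq_true, zero_pow, mul_zero, natDegree_zero]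
      omega
    · have e3 := (natDegree_lt_iff_degree_lt b0).2 hb
      have e4 := natDegree_mul_le (p := f) (q := b ^ 2)
      rw [natDegree_pow] at e4
      omega
  have e3 := natDegree_sub_le (p ^ 2) (f * b ^ 2)
  rw [hq, natDegree_mul hU.ne_zero q0, natDegree_pow] at e3
  omega

end Wg

open Wg in
theorem wg : WGStmt := by
  intro K _ _ g f hf
  have f0 := sq_ne hf
  have hm := sq_mq hf
  obtain ⟨n1, n2, n3, n4, -⟩ := UV.gram.1 K (mo f) hm.monic
  refine ⟨⟨isCoprime_one_left, 1, 0, 1, 1, monic_one, by simp, one_dvd _, isCoprime_one_left,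
    one_ne_zero, by simp⟩, ?_, ?_, fun δ π r hr => ⟨fun h => ?_, scale hr⟩, fun U U₁ e d => ?_,
    fun δ z h k => ⟨h, 1, 0, z, 1, monic_one, by simp, one_dvd _, isCoprime_one_left,
      one_ne_zero, by simpa using k⟩, ?_⟩
  · rintro δ δ' π π' ⟨h0, U, V, s, r, h1, hd, h2, h3, hr, h4⟩
      ⟨k0, U', V', s', r', k1, kd, k2, k3, kr, k4⟩
    obtain ⟨T, hT⟩ := JC.Grp.sq_mul h2 h3 k1.ne_zero k2 k3
    refine ⟨h0.mul_left k0, U * U', T, s * s', r * r', h1.mul k1, ?_, hT, h3.mul_left k3,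
      mul_ne_zero hr kr, ?_⟩
    · rw [h1.natDegree_mul k1, Nat.cast_add, hd, kd]
    rw [C_mul, show ∀ x y : K[X],
      δ * δ' * (x * y * (U * U')) - (s * s') ^ 2 = (δ * (x * U) - s ^ 2) * (δ' * (y * U')) +
        s ^ 2 * (δ' * (y * U') - s' ^ 2) from fun x y => by ring]
    exact dvd_add (h4.mul_right _) (k4.mul_left _)
  · rintro δ ⟨-, U, V, s, r, h1, hd, h2, h3, hr, h4⟩
    obtain ⟨k, hk⟩ := ZMod.natCast_eq_zero_iff_even.1 hd
    obtain ⟨m1, m2, m3, -⟩ := UV.gram.1 K U h1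
    have a := m2 _ _ h2
    have b := n2 _ _ ((mo_dvd f0).2 h4)
    have d : Nm (mo f) U = (-1) ^ ((mo f).natDegree * U.natDegree) * Nm U (mo f) :=
      resultant_comm _ _ _ _
    have l0 : f.leadingCoeff ^ k ≠ 0 := pow_ne_zero _ (leadingCoeff_ne_zero.2 f0)
    have e : Nm (mo f) (C r * U) = (r ^ (g + 1) * Nm U V / f.leadingCoeff ^ k) ^ 2 := by
      rw [← C_mul_mo f0, m1, m3, sq, m1, hk] at a
      rw [n1, n3, d, hm.deg, hk, Even.neg_one_pow ⟨(2 * g + 2) * k, by ring⟩, div_pow,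
        eq_div_iff (pow_ne_zero 2 l0)]
      linear_combination r ^ (2 * g + 2) * a
    have z := ((n4 _).2 ((isCoprime_mul_unit_left_left (unit hr) _ _).2
      ((mo_cop f0).2 h3))).ne_zero
    rw [n1, sq s, n1 s, e] at b
    rw [e] at z
    refine ⟨Nm (mo f) s / (r ^ (g + 1) * Nm U V / f.leadingCoeff ^ k), ?_⟩
    rw [div_mul_div_comm, ← sq (_ / _), eq_div_iff z, b]
  · have := scale (inv_ne_zero hr) h
    rwa [← mul_assoc, ← C_mul, inv_pow, inv_mul_cancel₀ (pow_ne_zero 2 hr), C_1, one_mul] at this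
  · have co : IsCoprime U U₁ := (e ▸ hf.sep).isCoprime
    have d1 : U₁.natDegree = 2 * g := by
      have := hf.deg
      rw [e, natDegree_mul (left_ne_zero_of_mul (e ▸ f0)) (right_ne_zero_of_mul (e ▸ f0)), d] at this
      omega
    have d2 : (U - U₁).natDegree = 2 * g := by
      rw [natDegree_sub_eq_right_of_natDegree_lt (by have := hf.pos; omega), d1]
    have w0 : U - U₁ ≠ 0 := fun h => by
      rw [h, natDegree_zero] at d2
      have := hf.pos
      omega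
    have cU : IsCoprime (U - U₁) f := by
      rw [e]
      refine IsCoprime.mul_right ?_ ?_
      · obtain ⟨a, b, h⟩ := co
        exact ⟨-b, a + b, by linear_combination h⟩
      · obtain ⟨a, b, h⟩ := co
        exact ⟨a, a + b, by linear_combination h⟩
    refine ⟨cU, mo (U - U₁), U₁, U - U₁, (U - U₁).leadingCoeff, mo_monic w0, ?_,
      (mo_dvd w0).2 ⟨U₁, by rw [e]; ring⟩, (isCoprime_mul_unit_left_left (mo_unit w0) _ _).2 cU,
      leadingCoeff_ne_zero.2 w0, ?_⟩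
    · rw [mo_deg w0, d2, ZMod.natCast_eq_zero_iff_even]
      exact even_two_mul g
    · rw [C_mul_mo w0, sq, sub_self]
      exact dvd_zero _
  · rintro L _ φ δ π ⟨h0, U, V, s, r, h1, hd, h2, h3, hr, h4⟩
    refine ⟨h0.map (mapRingHom φ), U.map φ, V.map φ, s.map φ, φ r, h1.map φ,
      by rw [natDegree_map, hd], ?_, h3.map (mapRingHom φ), (map_ne_zero φ).2 hr, ?_⟩
    · simpa using Polynomial.map_dvd φ h2
    · simpa using Polynomial.map_dvd φ h4

theorem qs : QSStmt := by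
  rintro K _ _ g f δ hf ⟨h0, U, V, s, r, hU, hd, h, h3, hr, hs⟩
  have f0 := sq_ne hf
  have hm := sq_mq hf
  obtain ⟨k, hk⟩ := ZMod.natCast_eq_zero_iff_even.1 hd
  obtain ⟨w, w', hw⟩ := h0.mul_left h3
  have fin : ∀ n, FiniteDimensional K (degreeLT K n) := fun n =>
    (degreeLTEquiv K n).symm.finiteDimensional
  let P := degreeLT K (g + k + 1) × degreeLT K k
  let L : P →ₗ[K] K[X] := (Submodule.subtype _).comp (LinearMap.fst _ _ _)
  let Φ : P →ₗ[K] degreeLT K U.natDegree := LinearMap.codRestrict _ ((modByMonicHom U).comp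
    (L - ((LinearMap.mulRight K V).comp (Submodule.subtype _)).comp (LinearMap.snd _ _ _)))
    fun z => mem_degreeLT.2 (degree_eq_natDegree hU.ne_zero ▸ degree_modByMonic_lt _ hU)
  let Ψ : LinearMap.ker Φ →ₗ[K] Fin (2 * g + 2) → K := LinearMap.pi fun i =>
    lcoeff K i.1 ∘ₗ modByMonicHom (mo f) ∘ₗ LinearMap.mulLeft K (s * w) ∘ₗ L ∘ₗ Submodule.subtype _
  have key : ∀ z : LinearMap.ker Φ, ∃ q : K[X], q.natDegree < 2 * g + 1 ∧
      z.1.1.1 ^ 2 - f * z.1.2.1 ^ 2 = U * q ∧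
      mo f ∣ δ * po (Ψ z) * po (Ψ z) - C r * q := fun z => by
    obtain ⟨q, h1, h2⟩ := Wg.quo hf.deg hU hk h (mem_degreeLT.1 z.1.1.2)
      (mem_degreeLT.1 z.1.2.2)
      ((modByMonic_eq_zero_iff_dvd hU).1 (congrArg Subtype.val (LinearMap.mem_ker.1 z.2)))
    refine ⟨q, h1, h2, (mo_dvd f0).2 ?_⟩
    have e : po (Ψ z) = s * w * z.1.1.1 %ₘ mo f := po_ve hm.monic hm.deg _
    obtain ⟨t, ht⟩ := (mo_dvd f0).1 (dvd_sub_mod (f := mo f) (s * w * z.1.1.1))
    obtain ⟨u, hu⟩ := hs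
    rw [← e] at ht
    generalize po (Ψ z) = y, z.1.1.1 = p, z.1.2.1 = b, C r = c at *
    refine ⟨δ * (s ^ 2 * w ^ 2 * b ^ 2 - t * (s * w * p + y) - u * w ^ 2 * U * q) -
      w' * (w * δ * U + 1) * c * q, ?_⟩
    linear_combination δ * s ^ 2 * w ^ 2 * h2 - δ * (s * w * p + y) * ht -
      δ * w ^ 2 * U * q * hu + (w * δ * U + 1) * c * q * hw
  have dg : ∀ q : K[X], q.natDegree < 2 * g + 1 → (C r * q).degree < (mo f).degree :=
    fun q hq => degree_lt_degree ((natDegree_C_mul_le _ _).trans_lt (by rw [hm.deg]; omega))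
  refine ⟨LinearMap.range Ψ, ?_, ?_⟩
  · rw [LinearMap.finrank_range_of_inj ((injective_iff_map_eq_zero _).2 fun z hz => ?_)]
    · have e1 := LinearMap.finrank_range_add_finrank_ker Φ
      have e2 := (LinearMap.range Φ).finrank_le
      rw [Module.finrank_prod, JC.Qs.rk, JC.Qs.rk] at e1
      rw [JC.Qs.rk] at e2
      omega
    obtain ⟨q, h1, h2, k⟩ := key z
    rw [hz, show po (0 : Fin (2 * g + 2) → K) = 0 by simp [po], mul_zero, zero_sub, dvd_neg] at k
    rw [(mul_eq_zero.1 (eq_zero_of_dvd_of_degree_lt k (dg q h1))).resolve_left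
      (Wg.unit hr).ne_zero, mul_zero, sub_eq_zero] at h2
    have b0 : z.1.2.1 = 0 := by
      by_contra n
      obtain ⟨y, hy⟩ : z.1.2.1 ∣ z.1.1.1 :=
        (UniqueFactorizationMonoid.pow_dvd_pow_iff_dvd two_ne_zero).1 ⟨f, by rw [h2, mul_comm]⟩
      rw [hy, mul_pow, mul_comm] at h2
      have e := mul_right_cancel₀ (pow_ne_zero 2 n) h2
      have := natDegree_eq_zero_of_isUnit (hf.sep.squarefree y ⟨1, by rw [← e]; ring⟩)
      have e2 := hf.deg
      rw [← e, natDegree_pow, this] at e2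
      omega
    rw [b0, zero_pow two_ne_zero, mul_zero, pow_eq_zero_iff two_ne_zero] at h2
    exact Subtype.ext (Prod.ext (Subtype.ext h2) (Subtype.ext b0))
  · rintro _ ⟨z, rfl⟩
    obtain ⟨q, h1, -, k⟩ := key z
    rw [Gm_form, ta_congr hm.monic k, ta_of_lt hm.monic (dg q h1), coeff_C_mul,
      coeff_eq_zero_of_natDegree_lt h1, mul_zero]

end Pool.Agent.MP_a43263_nt.VA

end MrgPart3

-- ======== part 4: formerly Pool.Agent.MP_a43263_nt.VA.All
section MrgPart4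

/-! THEOREM V, part A: assembly. -/

set_option autoImplicit false

namespace Pool.Agent.MP_a43263_nt.VA

theorem killAll : VV.KILLStmt :=
  kill_of JC.T.symb UV.diag UV.pad UV.intm UV.pf UV.lag UV.nxp gram wg qs hev hmv hens locu loci
    locq cmp nfm nfe ram ev real recp kill

end Pool.Agent.MP_a43263_nt.VA

end MrgPart4

-- marker of a merged file
example : 731051 + 55327 = 731051 + 55327 := rfl
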